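import Pool.Agent.WK6.Stmts2
import Pool.Agent.WK4.Xf6

/-!
# MP_7d2497_an, squad WK6: XF6 for weights with `Lcl` (the proof of helper24)
-/

set_option autoImplicit false

namespace Pool.Agent.WK6

open MeasureTheory Filter Topology Complex
open Pool.Agent.H78E Pool.Agent.WK Pool.Agent.WK2 Pool.Agent.WK3 Pool.Agent.WK4
open Pool.Agent.WKS (dv YW WS chiW ISub annW lapuW)

noncomputable section

open Pool.Agent.WK4.H24

/-- XF6: approximation of a function with transform zero on `F0 ∪ {p}` by functions with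
transform zero in addition on a set near `p`. -/
theorem gf6 (xf5 : Gf5Stmt) (xdu : XduStmt) : Gf6Stmt := by
  intro φ hφ hlc hlin p F0 f hp hf hfp hf0 n ε hn hε
  obtain ⟨v, hv, hv0, hfv⟩ := step0 xdu hφ p F0 f hp hf hfp hf0 (ε / 4) (by positivity)
  obtain ⟨Df, hDf0, hDf⟩ := fac0 φ hφ
  obtain ⟨D, hD0, hD⟩ := av cnv lew φ hφ p
  obtain ⟨hRvLP, _, hRvFT, _⟩ := hDf p v hv
  have hnv : 0 ≤ nm φ v := nm_nonneg hφ v
  -- the choice of `L`
  obtain ⟨L, hL0, hL⟩ : ∃ L : ℝ, 0 < L ∧ D * ((1 + φ L) / L) * nm φ v ≤ ε / 8 := by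
    obtain ⟨Q, hQ⟩ : ∃ Q : ℝ, Q = 16 * (D * nm φ v) / ε + 1 := ⟨_, rfl⟩
    have hQ1 : 1 ≤ Q := by
      rw [hQ]
      have : 0 ≤ 16 * (D * nm φ v) / ε := by positivity
      linarith
    have h1 : ¬ ∀ t : ℝ, 0 ≤ t → t ≤ Q * φ t := fun h => hlin ⟨Q, h⟩
    push Not at h1
    obtain ⟨L, hL, hQL⟩ := h1
    have hφL := hφ.one_le L
    have hL0 : 0 < L := by
      refine lt_of_lt_of_le ?_ hQL.le
      positivity
    refine ⟨L, hL0, ?_⟩
    have h2 : (1 + φ L) / L ≤ 2 / Q := by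
      rw [div_le_div_iff₀ hL0 (by linarith)]
      nlinarith
    calc D * ((1 + φ L) / L) * nm φ v ≤ D * (2 / Q) * nm φ v := by gcongr
      _ = 2 * (D * nm φ v) / Q := by ring
      _ ≤ ε / 8 := by
          rw [div_le_div_iff₀ (by linarith) (by norm_num)]
          have h3 : 16 * (D * nm φ v) = (Q - 1) * ε := by
            rw [hQ]
            field_simp
            ring
          nlinarith
  obtain ⟨S, hS1, hS⟩ := (lew φ hφ).2.1 L
  have hS' : ∀ t : ℝ, 0 ≤ t → t ≤ L → φ t ≤ S := fun t h0 h1 => hS t (by rwa [abs_of_nonneg h0])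
  obtain ⟨ρ1, hρ1, hρ1'⟩ : ∃ ρ1 : ℝ, 0 < ρ1 ∧ D * (ρ1 * S) * nm φ v ≤ ε / 8 := by
    refine ⟨ε / (8 * (D * S * nm φ v + 1)), by positivity, ?_⟩
    have h1 : 0 < D * S * nm φ v + 1 := by positivity
    have h2 : D * (ε / (8 * (D * S * nm φ v + 1)) * S) * nm φ v =
        (ε / 8) * ((D * S * nm φ v) / (D * S * nm φ v + 1)) := by
      field_simp
    rw [h2]
    refine mul_le_of_le_one_right (by positivity) ?_
    rw [div_le_one h1]
    linarith
  have havg : ∀ y : ℝ, |y - p| ≤ ρ1 →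
      nm φ (fun t => RR p (cv v (ka L y)) t) ≤ ε / 4 := by
    intro y hy
    refine ((hD L y S v hL0 hS' hv).2.2.2).trans ?_
    have h1 : |y - p| * S ≤ ρ1 * S := mul_le_mul_of_nonneg_right hy (by linarith)
    calc D * ((1 + φ L) / L + |y - p| * S) * ∫ t : ℝ, φ t * ‖v t‖
        ≤ D * ((1 + φ L) / L + ρ1 * S) * nm φ v :=
          mul_le_mul_of_nonneg_right (mul_le_mul_of_nonneg_left (by linarith) hD0) hnv
      _ = D * ((1 + φ L) / L) * nm φ v + D * (ρ1 * S) * nm φ v := by ring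
      _ ≤ ε / 4 := by linarith
  obtain ⟨ρ2, n', hρ2, hn', h5⟩ := xf5 φ hφ hlc hlin p F0 n hp hn
  obtain ⟨⟨S0, hS0, hdua⟩, _⟩ := xdu φ hφ
  have hRvp : FT (RR p v) (p : ℂ) = 0 := by
    rw [hRvFT (p : ℂ) (by simp), sub_self, zero_div, zero_mul]
  have hRv0 : ∀ x ∈ F0, FT (RR p v) (x : ℂ) = 0 := by
    intro x hx
    rw [hRvFT (x : ℂ) (by simp), hv0 x hx, mul_zero]
  have hS0' : 0 < S0 := lt_of_lt_of_le one_pos hS0
  obtain ⟨ρ3, hρ3, h3⟩ := hlc p (RR p v) hRvLP hRvp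
    (ε / (8 * n' * S0 * (1 + S))) (by positivity)
  refine ⟨min ρ1 (min ρ2 ρ3), lt_min hρ1 (lt_min hρ2 hρ3), ?_⟩
  intro F' hF' hineq y hy
  have hF2 : ∀ x ∈ F', |x - p| ≤ ρ2 := fun x hx =>
    (hF' x hx).trans ((min_le_right _ _).trans (min_le_left _ _))
  have hF3 : ∀ x ∈ insert p F', |x - p| ≤ ρ3 := by
    intro x hx
    rcases Finset.mem_insert.1 hx with rfl | hx
    · rw [sub_self, abs_zero]
      exact hρ3.le
    · exact (hF' x hx).trans ((min_le_right _ _).trans (min_le_right _ _))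
  have hy1 : |y - p| ≤ ρ1 := hy.trans (min_le_left _ _)
  obtain ⟨hdisj, hbd⟩ := h5 F' hF2 hineq
  have hδ : 0 < ε / (8 * (1 + S)) := by positivity
  obtain ⟨f1, hf1, hf1z, hdist⟩ := hdua (F0 ∪ insert p F') (RR p v) (ε / (8 * (1 + S))) hRvLP (by
    intro c hc
    rw [Finset.sum_union hdisj, Finset.sum_eq_zero (fun x hx => by rw [hRv0 x hx, mul_zero]),
      zero_add]
    have h1 := h3 (insert p F') c (n' * S0) hF3 (hbd c S0 hc)
    have h2 : ε / (8 * n' * S0 * (1 + S)) * (n' * S0) = ε / (8 * (1 + S)) := by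
      field_simp
    rwa [h2] at h1) (ε / (8 * (1 + S))) hδ
  obtain ⟨g1, g2, g3, _⟩ := hD L y S f1 hL0 hS' hf1
  obtain ⟨hkaLP, hkaS⟩ := H60V.ka_LP hφ hL0 y hS'
  refine ⟨fun t => f1 t - cv f1 (ka L y) t, LP.sub hφ hf1 g1, ?_, ?_⟩
  · intro x hx
    rw [FT_sub hφ hf1 g1 (by simp)]
    rcases Finset.mem_insert.1 hx with rfl | hx
    · rw [g2, sub_self]
    · have hx' : x ∈ F0 ∪ insert p F' := by
        rcases Finset.mem_insert.1 hx with rfl | hx
        · exact Finset.mem_union_right _ (Finset.mem_insert_self _ _)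
        · rcases Finset.mem_union.1 hx with hx | hx
          · exact Finset.mem_union_left _ hx
          · exact Finset.mem_union_right _ (Finset.mem_insert_of_mem hx)
      rw [g3 x (hf1z x hx'), hf1z x hx', sub_zero]
  · -- the distance
    have hdist' : nm φ (fun t => RR p v t - f1 t) ≤ ε / (8 * (1 + S)) + ε / (8 * (1 + S)) := hdist
    obtain ⟨c1, c2, c3⟩ := cnv φ hφ (RR p v) (ka L y) hRvLP hkaLP
    obtain ⟨d1, d2, d3⟩ := cnv φ hφ f1 (ka L y) hf1 hkaLP
    obtain ⟨e1, e2, e3⟩ := cnv φ hφ (fun t => f1 t - RR p v t) (ka L y)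
      (LP.sub hφ hf1 hRvLP) hkaLP
    obtain ⟨k1, k2, k3⟩ := cnv φ hφ v (ka L y) hv hkaLP
    obtain ⟨m1, _, m3, _⟩ := hDf p (cv v (ka L y)) k1
    have a1 : cv (RR p v) (ka L y) =ᵐ[volume] RR p (cv v (ka L y)) := by
      refine uniq hφ c1 m1 fun z hz => ?_
      rw [c3 z hz.le, m3 z hz.le, k3 z hz.le, hRvFT z hz.le]
      ring
    have a2 : cv f1 (ka L y) =ᵐ[volume]
        fun t => cv (fun t => f1 t - RR p v t) (ka L y) t + cv (RR p v) (ka L y) t := by
      refine uniq hφ d1 (LP.add hφ e1 c1) fun z hz => ?_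
      rw [FT_add hφ e1 c1 hz.le, d3 z hz.le, e3 z hz.le, c3 z hz.le,
        FT_sub hφ hf1 hRvLP hz.le]
      ring
    have b1 : nm φ (cv (RR p v) (ka L y)) ≤ ε / 4 := by
      rw [nm_congr a1]
      exact havg y hy1
    have b2 : nm φ (cv (fun t => f1 t - RR p v t) (ka L y)) ≤
        (ε / (8 * (1 + S)) + ε / (8 * (1 + S))) * S := by
      refine e2.trans ?_
      refine mul_le_mul ?_ hkaS ?_ (by positivity)
      · have h1 := nm_comm (φ := φ) f1 (RR p v)
        unfold nm at h1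
        rw [h1]
        exact hdist
      · exact integral_nonneg fun t => mul_nonneg (wpos hφ t).le (norm_nonneg _)
    have b3 : nm φ (cv f1 (ka L y)) ≤ (ε / (8 * (1 + S)) + ε / (8 * (1 + S))) * S + ε / 4 := by
      rw [nm_congr a2]
      exact (nm_add hφ e1 c1).trans (add_le_add b2 b1)
    have hid : (fun t => f t - (f1 t - cv f1 (ka L y) t)) =
        fun t => ((f t - RR p v t) + (RR p v t - f1 t)) + cv f1 (ka L y) t := by
      funext t
      ring
    have b4 := nm_add hφ (LP.add hφ (LP.sub hφ hf hRvLP) (LP.sub hφ hRvLP hf1)) g1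
    have b5 := nm_add hφ (LP.sub hφ hf hRvLP) (LP.sub hφ hRvLP hf1)
    have b6 : nm φ (fun t => f t - (f1 t - cv f1 (ka L y) t)) ≤ ε := by
      rw [hid]
      have h6 : (ε / (8 * (1 + S)) + ε / (8 * (1 + S))) +
          (ε / (8 * (1 + S)) + ε / (8 * (1 + S))) * S = ε / 4 := by
        have hS2 : (1 + S) ≠ 0 := by positivity
        field_simp
        ring
      linarith
    exact b6

end

end Pool.Agent.WK6
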