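import Pool.Agent.WK6.Stmts
import Pool.Agent.WK5.Fbw

/-!
# MP_7d2497_an, squad WK6, row GR0 (helper56): domination
-/

set_option autoImplicit false

namespace Pool.Agent.WK6

open MeasureTheory Filter Topology Complex
open Pool.Agent.H78E Pool.Agent.WK Pool.Agent.WK2
open Pool.Agent.WK3 (QC Lin)

/-- ROW GR0. -/
theorem gr0 : Gr0Stmt := by
  intro φ hφ hQ hS δ hδ
  obtain ⟨C, hC, hq⟩ := Pool.Agent.WK5.qc_le hφ hQ
  have h1 : ∀ᶠ t in atTop, Real.log (φ (-t)) / Real.sqrt t < δ := hS.eventually (gt_mem_nhds hδ)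
  obtain ⟨T, hT⟩ := Filter.eventually_atTop.1 (h1.and (eventually_gt_atTop 0))
  obtain ⟨C1, hC1, hb⟩ := Pool.Agent.WKS.local_bound hφ |T|
  refine ⟨C * (1 + 2 / δ ^ 2) + 1 + C1, by positivity, fun s => ?_⟩
  have he1 : 1 ≤ Real.exp (δ * Real.sqrt |s|) := Real.one_le_exp (by positivity)
  have hpos := Real.exp_pos (δ * Real.sqrt |s|)
  have hA : 0 ≤ C * (1 + 2 / δ ^ 2) := by positivity
  rcases le_or_gt 0 s with hs | hs
  · have h2 := hq s hs
    have h3 : 1 + s ≤ (1 + 2 / δ ^ 2) * Real.exp (δ * Real.sqrt |s|) := by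
      have h4 := Real.quadratic_le_exp_of_nonneg (x := δ * Real.sqrt |s|) (by positivity)
      have h5 : Real.sqrt |s| ^ 2 = s := by
        rw [Real.sq_sqrt (abs_nonneg s), abs_of_nonneg hs]
      have h6 : δ ^ 2 * s / 2 ≤ Real.exp (δ * Real.sqrt |s|) := by
        have h7 : (δ * Real.sqrt |s|) ^ 2 = δ ^ 2 * s := by rw [mul_pow, h5]
        rw [h7] at h4
        have : 0 ≤ δ * Real.sqrt |s| := by positivity
        linarith
      have h8 : s ≤ 2 / δ ^ 2 * Real.exp (δ * Real.sqrt |s|) := by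
        have h9 : s = 2 / δ ^ 2 * (δ ^ 2 * s / 2) := by field_simp
        rw [h9]
        have h10 : (0 : ℝ) ≤ 2 / δ ^ 2 := by positivity
        have h11 : 2 / δ ^ 2 * (δ ^ 2 * s / 2) = s := h9.symm
        rw [h11]
        calc s = 2 / δ ^ 2 * (δ ^ 2 * s / 2) := h9
          _ ≤ _ := mul_le_mul_of_nonneg_left h6 h10
      rw [add_mul, one_mul]
      linarith
    calc φ s ≤ C * (1 + s) := h2
      _ ≤ C * ((1 + 2 / δ ^ 2) * Real.exp (δ * Real.sqrt |s|)) :=
        mul_le_mul_of_nonneg_left h3 hC.le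
      _ = C * (1 + 2 / δ ^ 2) * Real.exp (δ * Real.sqrt |s|) := by ring
      _ ≤ (C * (1 + 2 / δ ^ 2) + 1 + C1) * Real.exp (δ * Real.sqrt |s|) :=
        mul_le_mul_of_nonneg_right (by linarith) hpos.le
  · have hs' : |s| = -s := abs_of_neg hs
    rcases le_or_gt T (-s) with h | h
    · obtain ⟨h2, h3⟩ := hT (-s) h
      rw [neg_neg] at h2
      have h4 : 0 < Real.sqrt (-s) := Real.sqrt_pos.2 h3
      rw [div_lt_iff₀ h4] at h2
      have h5 : φ s ≤ Real.exp (δ * Real.sqrt |s|) := by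
        rw [hs']
        have h6 : 0 < φ s := zero_lt_one.trans_le (hφ.one_le s)
        rw [← Real.log_le_iff_le_exp h6]
        exact h2.le
      refine h5.trans ?_
      have : 1 * Real.exp (δ * Real.sqrt |s|) ≤
          (C * (1 + 2 / δ ^ 2) + 1 + C1) * Real.exp (δ * Real.sqrt |s|) :=
        mul_le_mul_of_nonneg_right (by linarith) hpos.le
      linarith
    · have h2 : φ s ≤ C1 := by
        apply hb
        rw [hs']
        exact h.le.trans (le_abs_self T)
      have : (C * (1 + 2 / δ ^ 2) + 1 + C1) * 1 ≤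
          (C * (1 + 2 / δ ^ 2) + 1 + C1) * Real.exp (δ * Real.sqrt |s|) :=
        mul_le_mul_of_nonneg_left he1 (by linarith)
      linarith

end Pool.Agent.WK6
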