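import Pool.Agent.WK6.Stmts
import Pool.Agent.WK5.Fbw
import Pool.Agent.WK5.Vpw
import Pool.Agent.Helper15_E.Line
import Pool.Agent.Helper78_E.SpecL

/-!
# MP_7d2497_an, squad WK6: row OPT, one-point spectrum on the line
-/

set_option autoImplicit false

namespace Pool.Agent.WK6

open MeasureTheory Filter Topology Complex
open Pool.Agent.H78E Pool.Agent.WKS
open Pool.Agent.WK3 (QC Lin)

noncomputable section

namespace H7O

variable {φ : ℝ → ℝ}

theorem pos (hφ : IsWeight φ) (t : ℝ) : 0 < φ t := zero_lt_one.trans_le (hφ.one_le t)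

/-- Less than linear growth. -/
theorem sublin (hφ : IsWeight φ) (hQ : QC φ) (hN : ¬ Lin φ) {ε : ℝ} (hε : 0 < ε) :
    ∃ D : ℝ, 0 ≤ D ∧ ∀ t : ℝ, 0 ≤ t → φ t ≤ ε * t + D := by
  obtain ⟨C0, hC0, hb⟩ := Pool.Agent.WK5.qc_le hφ hQ
  obtain ⟨C, hC, h⟩ := hQ
  unfold Lin at hN
  push Not at hN
  obtain ⟨t0, ht0, hlt⟩ := hN (C / ε)
  have hp := pos hφ t0
  have ht0' : 0 < t0 := lt_of_le_of_lt (by positivity) hlt
  refine ⟨C0 * (1 + t0), by positivity, fun t ht => ?_⟩
  rcases le_total t t0 with h1 | h1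
  · have h2 := hb t ht
    have h3 : C0 * (1 + t) ≤ C0 * (1 + t0) := by gcongr
    have h4 : 0 ≤ ε * t := by positivity
    linarith
  · have h2 := (h t0 t ht0' h1).2
    have h3 : C * φ t0 ≤ ε * t0 := by
      have h4 : C / ε * φ t0 ≤ t0 := hlt.le
      have h5 : C / ε * φ t0 * ε = C * φ t0 := by field_simp
      nlinarith
    have h6 : t0 * φ t ≤ t0 * (ε * t) := by
      calc t0 * φ t ≤ C * (t * φ t0) := h2
        _ = t * (C * φ t0) := by ring
        _ ≤ t * (ε * t0) := mul_le_mul_of_nonneg_left h3 ht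
        _ = t0 * (ε * t) := by ring
    have h7 : φ t ≤ ε * t := le_of_mul_le_mul_left h6 ht0'
    have h8 : 0 ≤ C0 * (1 + t0) := by positivity
    linarith

theorem int_pos (hφ : IsWeight φ) {y : ℝ} (hy : 0 < y) :
    IntegrableOn (fun t : ℝ => φ t * Real.exp (-(y * t))) (Set.Ioi 0) volume := by
  have h := (Helper15_E.integrable_weight hφ hy).integrableOn (s := Set.Ioi (0 : ℝ))
  refine h.congr_fun ?_ measurableSet_Ioi
  intro t ht
  simp only
  rw [show |t| = t from abs_of_pos ht]

theorem int_neg (hφ : IsWeight φ) {y : ℝ} (hy : 0 < y) :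
    IntegrableOn (fun t : ℝ => φ (-t) * Real.exp (-(y * t))) (Set.Ioi 0) volume := by
  have h := ((Helper15_E.integrable_weight hφ hy).comp_neg).integrableOn (s := Set.Ioi (0 : ℝ))
  refine h.congr_fun ?_ measurableSet_Ioi
  intro t ht
  simp only
  rw [abs_neg, show |t| = t from abs_of_pos ht]

theorem int_lin {a b y : ℝ} (hy : 0 < y) :
    IntegrableOn (fun t : ℝ => (a * t + b) * Real.exp (-(y * t))) (Set.Ioi 0) volume ∧
    ∫ t in Set.Ioi (0 : ℝ), (a * t + b) * Real.exp (-(y * t)) = a / y ^ 2 + b / y := by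
  have h1 := (Pool.Agent.WK5.VPW56.intble_mul_exp hy).const_mul a
  have h2 := (Pool.Agent.WK5.VPW56.intble_exp hy).const_mul b
  have e : (fun t : ℝ => (a * t + b) * Real.exp (-(y * t))) =
      fun t : ℝ => a * (t * Real.exp (-(y * t))) + b * Real.exp (-(y * t)) := by
    ext1 t
    ring
  rw [e]
  refine ⟨h1.add h2, ?_⟩
  rw [integral_add h1 h2, integral_const_mul, integral_const_mul,
    Pool.Agent.WK5.VPW56.int_mul_exp hy, Pool.Agent.WK5.VPW56.int_exp hy]
  ring

/-- Bound of the Laplace integral. -/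
theorem lap_le (hφ : IsWeight φ) {a b : ℝ} (h : ∀ t : ℝ, 0 ≤ t → φ t ≤ a * t + b) {y : ℝ}
    (hy : 0 < y) : ∫ t in Set.Ioi (0 : ℝ), φ t * Real.exp (-(y * t)) ≤ a / y ^ 2 + b / y := by
  rw [← (int_lin (a := a) (b := b) hy).2]
  refine setIntegral_mono_on (int_pos hφ hy) (int_lin hy).1 measurableSet_Ioi fun t ht => ?_
  exact mul_le_mul_of_nonneg_right (h t (le_of_lt ht)) (Real.exp_pos _).le

/-- Bound of the Laplace integral on the negative side. -/
theorem lap_neg_le (hφ : IsWeight φ) (hS : Sub φ) {η : ℝ} (hη : 0 < η) :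
    ∃ C : ℝ, 0 ≤ C ∧ ∀ y : ℝ, 0 < y →
      ∫ t in Set.Ioi (0 : ℝ), φ (-t) * Real.exp (-(y * t)) ≤ C * Real.exp (η / y) := by
  obtain ⟨C, hC, h⟩ := hS (Real.sqrt η) (Real.sqrt_pos.mpr hη)
  refine ⟨C * (4 / η), by positivity, fun y hy => ?_⟩
  have hy2 : 0 < y / 2 := by positivity
  have hpt : ∀ t : ℝ, 0 < t → φ (-t) * Real.exp (-(y * t)) ≤
      (C * Real.exp (η / (2 * y))) * Real.exp (-((y / 2) * t)) := by
    intro t ht
    have h1 := h (-t)
    rw [abs_neg, abs_of_pos ht] at h1
    have h2 : Real.sqrt η * Real.sqrt t ≤ y * t / 2 + η / (2 * y) := by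
      have hsη := Real.sq_sqrt hη.le
      have hst := Real.sq_sqrt ht.le
      have h3 : 0 ≤ (y * Real.sqrt t - Real.sqrt η) ^ 2 := sq_nonneg _
      have h4 : (y * Real.sqrt t - Real.sqrt η) ^ 2 =
          y ^ 2 * t - 2 * y * (Real.sqrt η * Real.sqrt t) + η := by
        ring_nf
        rw [hsη, hst]
      rw [h4] at h3
      have h5 : 2 * y * (Real.sqrt η * Real.sqrt t) ≤ y ^ 2 * t + η := by linarith
      have h6 : 2 * y * (y * t / 2 + η / (2 * y)) = y ^ 2 * t + η := by
        field_simp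
      have h7 : 0 < 2 * y := by positivity
      exact le_of_mul_le_mul_left (by rw [h6]; exact h5) h7
    calc φ (-t) * Real.exp (-(y * t))
        ≤ (C * Real.exp (Real.sqrt η * Real.sqrt t)) * Real.exp (-(y * t)) :=
          mul_le_mul_of_nonneg_right h1 (Real.exp_pos _).le
      _ ≤ (C * Real.exp (y * t / 2 + η / (2 * y))) * Real.exp (-(y * t)) := by
          gcongr
      _ = _ := by
          rw [mul_assoc, mul_assoc, ← Real.exp_add, ← Real.exp_add]
          congr 2
          ring
  have h1 : ∫ t in Set.Ioi (0 : ℝ), φ (-t) * Real.exp (-(y * t)) ≤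
      ∫ t in Set.Ioi (0 : ℝ), (C * Real.exp (η / (2 * y))) * Real.exp (-((y / 2) * t)) := by
    refine setIntegral_mono_on (int_neg hφ hy)
      ((Pool.Agent.WK5.VPW56.intble_exp hy2).const_mul _) measurableSet_Ioi fun t ht => hpt t ht
  refine h1.trans ?_
  rw [integral_const_mul, Pool.Agent.WK5.VPW56.int_exp hy2]
  have h2 : 1 / (y / 2) ≤ (4 / η) * Real.exp (η / (2 * y)) := by
    have h3 : η / (2 * y) ≤ Real.exp (η / (2 * y)) := by
      have := Real.add_one_le_exp (η / (2 * y))
      linarith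
    calc 1 / (y / 2) = (4 / η) * (η / (2 * y)) := by
          field_simp
          ring
      _ ≤ _ := mul_le_mul_of_nonneg_left h3 (by positivity)
  calc C * Real.exp (η / (2 * y)) * (1 / (y / 2))
      ≤ C * Real.exp (η / (2 * y)) * ((4 / η) * Real.exp (η / (2 * y))) :=
        mul_le_mul_of_nonneg_left h2 (by positivity)
    _ = C * (4 / η) * (Real.exp (η / (2 * y)) * Real.exp (η / (2 * y))) := by ring
    _ = C * (4 / η) * Real.exp (η / y) := by
        rw [← Real.exp_add]
        congr 2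
        field_simp
        ring

/-- Uniqueness of the Laplace transform for functions of exponential growth less than `1`. -/
theorem uniq {h : ℝ → ℂ} (hm : AEStronglyMeasurable h volume)
    (hi : IntegrableOn (fun t : ℝ => h t * Real.exp (-t)) (Set.Ioi 0) volume)
    (h0 : ∀ z : ℂ, z.im < 0 →
      ∫ t in Set.Ioi (0 : ℝ), h t * Complex.exp (-(t : ℂ)) *
        Complex.exp (-(Complex.I * (t : ℂ) * z)) = 0) :
    ∀ᵐ t : ℝ, 0 < t → h t = 0 := by
  obtain ⟨u, hu⟩ : ∃ u : ℝ → ℂ, u = (Set.Ioi (0 : ℝ)).indicator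
    (fun t => h t * ((Real.exp (-t) : ℝ) : ℂ)) := ⟨_, rfl⟩
  have hui : Integrable u volume := by
    rw [hu]
    exact hi.integrable_indicator measurableSet_Ioi
  have hw : IsWeight (fun _ : ℝ => (1 : ℝ)) := by
    refine ⟨measurable_const, fun _ => le_rfl, fun _ _ => by norm_num, ?_, ?_⟩
    · simp
    · simp
  have hL1 : L1 (fun _ : ℝ => (1 : ℝ)) u := by
    refine ⟨hui.aestronglyMeasurable, ?_⟩
    simpa using hui.norm
  have hneg : ∀ t : ℝ, t < 0 → u t = 0 := by
    intro t ht
    rw [hu, Set.indicator_of_notMem (fun hc => absurd (Set.mem_Ioi.mp hc) (not_lt.mpr ht.le))]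
  obtain ⟨F, hF⟩ := toYW hw hL1 (Eventually.of_forall hneg)
  have hF0 : F = 0 := by
    apply lapuW hw
    intro z hz
    rw [chiW_eq_Ioi hz.le]
    rw [← h0 z hz]
    apply setIntegral_congr_ae measurableSet_Ioi
    filter_upwards [hF] with t ht h1
    rw [ht, hu, Set.indicator_of_mem h1]
    push_cast
    ring
  have h2 : ((dv (fun _ : ℝ => (1 : ℝ)) F : X) : ℝ → ℂ) =ᵐ[volume] fun _ => 0 := by
    rw [hF0, map_zero]
    exact Lp.coeFn_zero ℂ 1 (volume : Measure ℝ)
  filter_upwards [hF, h2] with t h3 h4 h5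
  rw [h3, hu, Set.indicator_of_mem (show t ∈ Set.Ioi (0 : ℝ) from h5)] at h4
  rcases mul_eq_zero.mp h4 with h6 | h6
  · exact h6
  · exfalso
    have h7 : Real.exp (-t) = 0 := by exact_mod_cast h6
    exact (Real.exp_pos _).ne' h7

/-- The Laplace transform of an exponential, right half-line. -/
theorem int_expR_pos {z : ℂ} (hz : 0 < z.im) (p : ℝ) :
    IntegrableOn (fun t : ℝ => expR p t * Complex.exp (Complex.I * z * t)) (Set.Ioi 0) volume ∧
    ∫ t in Set.Ioi (0 : ℝ), expR p t * Complex.exp (Complex.I * z * t) =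
      1 / (-(Complex.I * (z - (p : ℂ)))) := by
  have ha : 0 < (-(Complex.I * (z - (p : ℂ)))).re := by simpa using hz
  have e : (fun t : ℝ => expR p t * Complex.exp (Complex.I * z * t)) =
      fun t : ℝ => Complex.exp (-((-(Complex.I * (z - (p : ℂ)))) * (t : ℂ))) := by
    ext1 t
    unfold expR
    rw [← Complex.exp_add]
    congr 1
    ring
  rw [e]
  exact ⟨integrable_exp ha, integral_exp_im ha⟩

/-- The Laplace transform of an exponential, left half-line, reflected. -/
theorem int_expR_neg {z : ℂ} (hz : z.im < 0) (p : ℝ) :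
    IntegrableOn (fun t : ℝ => expR p (-t) * Complex.exp (Complex.I * z * ((-t : ℝ) : ℂ)))
      (Set.Ioi 0) volume ∧
    ∫ t in Set.Ioi (0 : ℝ), expR p (-t) * Complex.exp (Complex.I * z * ((-t : ℝ) : ℂ)) =
      1 / (Complex.I * (z - (p : ℂ))) := by
  have ha : 0 < (Complex.I * (z - (p : ℂ))).re := by simpa using hz
  have e : (fun t : ℝ => expR p (-t) * Complex.exp (Complex.I * z * ((-t : ℝ) : ℂ))) =
      fun t : ℝ => Complex.exp (-((Complex.I * (z - (p : ℂ))) * (t : ℂ))) := by
    ext1 t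
    unfold expR
    rw [← Complex.exp_add]
    congr 1
    push_cast
    ring
  rw [e]
  exact ⟨integrable_exp ha, integral_exp_im ha⟩

theorem norm_cexp_I' (z : ℂ) (t : ℝ) :
    ‖Complex.exp (Complex.I * z * (t : ℂ))‖ = Real.exp (-(z.im * t)) := norm_cexp_I z t

/-- Integrability of an element of the weighted space against the exponential. -/
theorem intble_pos (hφ : IsWeight φ) {P : ℝ → ℂ} {B : ℝ} (hm : AEStronglyMeasurable P volume)
    (hB : ∀ᵐ t : ℝ, ‖P t‖ ≤ B * φ t) {z : ℂ} (hz : 0 < z.im) :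
    IntegrableOn (fun t : ℝ => P t * Complex.exp (Complex.I * z * t)) (Set.Ioi 0) volume := by
  refine ((int_pos hφ hz).const_mul |B|).mono' ?_ ?_
  · refine hm.restrict.mul ?_
    apply Continuous.aestronglyMeasurable
    fun_prop
  · filter_upwards [ae_restrict_of_ae hB] with t ht
    rw [norm_mul, norm_cexp_I']
    calc ‖P t‖ * Real.exp (-(z.im * t)) ≤ (B * φ t) * Real.exp (-(z.im * t)) :=
          mul_le_mul_of_nonneg_right ht (Real.exp_pos _).le
      _ ≤ (|B| * φ t) * Real.exp (-(z.im * t)) := by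
          have := pos hφ t
          gcongr
          exact le_abs_self B
      _ = _ := by ring

theorem norm_pos_le (hφ : IsWeight φ) {P : ℝ → ℂ} {B : ℝ}
    (hB : ∀ᵐ t : ℝ, ‖P t‖ ≤ B * φ t) {z : ℂ} (hz : 0 < z.im) :
    ‖∫ t in Set.Ioi (0 : ℝ), P t * Complex.exp (Complex.I * z * t)‖ ≤
      |B| * ∫ t in Set.Ioi (0 : ℝ), φ t * Real.exp (-(z.im * t)) := by
  rw [← integral_const_mul]
  apply norm_integral_le_of_norm_le ((int_pos hφ hz).const_mul |B|)
  filter_upwards [ae_restrict_of_ae hB] with t ht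
  rw [norm_mul, norm_cexp_I']
  calc ‖P t‖ * Real.exp (-(z.im * t)) ≤ (B * φ t) * Real.exp (-(z.im * t)) :=
        mul_le_mul_of_nonneg_right ht (Real.exp_pos _).le
    _ ≤ (|B| * φ t) * Real.exp (-(z.im * t)) := by
        have := pos hφ t
        gcongr
        exact le_abs_self B
    _ = _ := by ring

/-- Reflection of the integral over the left half-line. -/
theorem refl_int (P : ℝ → ℂ) (z : ℂ) :
    ∫ t in Set.Iio (0 : ℝ), P t * Complex.exp (Complex.I * z * t) =
      ∫ t in Set.Ioi (0 : ℝ), P (-t) * Complex.exp (Complex.I * z * ((-t : ℝ) : ℂ)) := by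
  have h1 := integral_comp_neg_Ioi (0 : ℝ)
    (fun t : ℝ => P t * Complex.exp (Complex.I * z * (t : ℂ)))
  rw [neg_zero] at h1
  rw [← integral_Iic_eq_integral_Iio, ← h1]

theorem ae_neg {q : ℝ → Prop} (h : ∀ᵐ t : ℝ, q t) : ∀ᵐ t : ℝ, q (-t) :=
  (Measure.measurePreserving_neg (volume : Measure ℝ)).quasiMeasurePreserving.ae h

theorem intble_neg (hφ : IsWeight φ) {P : ℝ → ℂ} {B : ℝ} (hm : AEStronglyMeasurable P volume)
    (hB : ∀ᵐ t : ℝ, ‖P t‖ ≤ B * φ t) {z : ℂ} (hz : z.im < 0) :
    IntegrableOn (fun t : ℝ => P (-t) * Complex.exp (Complex.I * z * ((-t : ℝ) : ℂ)))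
      (Set.Ioi 0) volume := by
  have hz' : 0 < -z.im := by linarith
  have hm' : AEStronglyMeasurable (fun t : ℝ => P (-t)) volume :=
    hm.comp_quasiMeasurePreserving
      (Measure.measurePreserving_neg (volume : Measure ℝ)).quasiMeasurePreserving
  refine ((int_neg hφ hz').const_mul |B|).mono' ?_ ?_
  · refine hm'.restrict.mul ?_
    apply Continuous.aestronglyMeasurable
    fun_prop
  · filter_upwards [ae_restrict_of_ae (ae_neg hB)] with t ht
    rw [norm_mul, norm_cexp_I']
    have e : -(z.im * -t) = -(-z.im * t) := by ring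
    rw [e]
    calc ‖P (-t)‖ * Real.exp (-(-z.im * t)) ≤ (B * φ (-t)) * Real.exp (-(-z.im * t)) :=
          mul_le_mul_of_nonneg_right ht (Real.exp_pos _).le
      _ ≤ (|B| * φ (-t)) * Real.exp (-(-z.im * t)) := by
          have := pos hφ (-t)
          gcongr
          exact le_abs_self B
      _ = _ := by ring

theorem norm_neg_le (hφ : IsWeight φ) {P : ℝ → ℂ} {B : ℝ}
    (hB : ∀ᵐ t : ℝ, ‖P t‖ ≤ B * φ t) {z : ℂ} (hz : z.im < 0) :
    ‖∫ t in Set.Iio (0 : ℝ), P t * Complex.exp (Complex.I * z * t)‖ ≤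
      |B| * ∫ t in Set.Ioi (0 : ℝ), φ (-t) * Real.exp (-(|z.im| * t)) := by
  have hz' : 0 < |z.im| := abs_pos.mpr hz.ne
  rw [refl_int, ← integral_const_mul]
  apply norm_integral_le_of_norm_le ((int_neg hφ hz').const_mul |B|)
  filter_upwards [ae_restrict_of_ae (ae_neg hB)] with t ht
  rw [norm_mul, norm_cexp_I']
  have e : -(z.im * -t) = -(|z.im| * t) := by
    rw [abs_of_neg hz]
    ring
  rw [e]
  calc ‖P (-t)‖ * Real.exp (-(|z.im| * t)) ≤ (B * φ (-t)) * Real.exp (-(|z.im| * t)) :=
        mul_le_mul_of_nonneg_right ht (Real.exp_pos _).le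
    _ ≤ (|B| * φ (-t)) * Real.exp (-(|z.im| * t)) := by
        have := pos hφ (-t)
        gcongr
        exact le_abs_self B
    _ = _ := by ring

end H7O

open H7O

/-- OPT. -/
theorem opt (hCA : Pool.Agent.WK5.CA3Stmt) (hLrb : LrbStmt) (hGr : Gr0Stmt) : OptStmt := by
  intro φ hφ hQ hN hSm P hP p hsp
  have hSub : Sub φ := hGr φ hφ hQ hSm
  obtain ⟨hPm, B, hB⟩ := hP
  obtain ⟨K, hKd, hKpos, hKneg⟩ := Helper15_E.line bipolar φ hφ P ⟨hPm, B, hB⟩
  obtain ⟨C1, hC1, hb1⟩ := Pool.Agent.WK5.qc_le hφ hQ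
  have hB0 : 0 ≤ |B| := abs_nonneg B
  -- differentiability off `p`
  have hop : IsOpen {z : ℂ | z ≠ (p : ℂ)} := isOpen_ne
  have hKd' : DifferentiableOn ℂ K {z : ℂ | z ≠ (p : ℂ)} := by
    refine hKd.mono ?_
    intro z hz x hx
    have : x = p := hsp hx
    rw [this]
    exact hz
  -- the bound above
  have hup : ∀ z : ℂ, 0 < z.im → ‖K z‖ ≤ |B| * (C1 / z.im ^ 2 + C1 / z.im) := by
    intro z hz
    rw [hKpos z hz]
    refine (norm_pos_le hφ hB hz).trans (mul_le_mul_of_nonneg_left ?_ hB0)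
    exact lap_le hφ (fun t ht => (hb1 t ht).trans (le_of_eq (by ring))) hz
  -- the bound below
  have hlow : ∀ η : ℝ, 0 < η → ∃ C : ℝ, 0 ≤ C ∧ ∀ z : ℂ, z.im < 0 →
      ‖K z‖ ≤ C * Real.exp (η / |z.im|) := by
    intro η hη
    obtain ⟨C, hC, h⟩ := lap_neg_le hφ hSub hη
    refine ⟨|B| * C, by positivity, fun z hz => ?_⟩
    rw [hKneg z hz, norm_neg]
    refine (norm_neg_le hφ hB hz).trans ?_
    rw [mul_assoc]
    exact mul_le_mul_of_nonneg_left (h _ (abs_pos.mpr hz.ne)) hB0
  obtain ⟨C2, hC2, hlow1⟩ := hlow 1 one_pos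
  -- a common bound
  set A : ℝ := max (|B| * (3 * C1)) C2 with hA
  have hA0 : 0 ≤ A := le_max_of_le_right hC2
  have hcom : ∀ z : ℂ, z.im ≠ 0 → ‖K z‖ ≤ A * Real.exp (1 / |z.im|) := by
    intro z hz
    rcases lt_or_gt_of_ne hz with h | h
    · exact (hlow1 z h).trans (mul_le_mul_of_nonneg_right (le_max_right _ _) (Real.exp_pos _).le)
    · refine (hup z h).trans ?_
      rw [abs_of_pos h]
      have hx : 0 < 1 / z.im := by positivity
      have h1 : 1 / z.im ≤ Real.exp (1 / z.im) := by
        have := Real.add_one_le_exp (1 / z.im)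
        linarith
      have h2 : (1 / z.im) ^ 2 ≤ 2 * Real.exp (1 / z.im) := by
        have := Real.quadratic_le_exp_of_nonneg hx.le
        nlinarith
      have h3 : C1 / z.im ^ 2 + C1 / z.im ≤ (3 * C1) * Real.exp (1 / z.im) := by
        have e1 : C1 / z.im ^ 2 = C1 * (1 / z.im) ^ 2 := by
          field_simp
        have e2 : C1 / z.im = C1 * (1 / z.im) := by
          field_simp
        rw [e1, e2]
        nlinarith
      calc |B| * (C1 / z.im ^ 2 + C1 / z.im) ≤ |B| * ((3 * C1) * Real.exp (1 / z.im)) :=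
            mul_le_mul_of_nonneg_left h3 hB0
        _ = (|B| * (3 * C1)) * Real.exp (1 / z.im) := by ring
        _ ≤ A * Real.exp (1 / z.im) :=
            mul_le_mul_of_nonneg_right (le_max_left _ _) (Real.exp_pos _).le
  -- CA3
  obtain ⟨c, hc⟩ := hCA K p (|B| * C1) (|p| + 5) 1 hKd'
    (by
      intro z hz
      refine (hup z hz).trans (le_of_eq ?_)
      ring)
    (by
      intro ε hε
      obtain ⟨D, hD, hDb⟩ := sublin hφ hQ hN (ε := ε / (2 * (|B| + 1))) (by positivity)
      refine ⟨ε / (2 * (|B| + 1) * (D + 1)), by positivity, fun y hy hyδ => ?_⟩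
      have him : ((p : ℂ) + Complex.I * (y : ℂ)).im = y := by simp
      have h1 : ‖K ((p : ℂ) + Complex.I * (y : ℂ))‖ ≤
          |B| * (ε / (2 * (|B| + 1)) / y ^ 2 + D / y) := by
        rw [hKpos _ (by rw [him]; exact hy)]
        refine (norm_pos_le hφ hB (by rw [him]; exact hy)).trans
          (mul_le_mul_of_nonneg_left ?_ hB0)
        rw [him]
        exact lap_le hφ hDb hy
      refine h1.trans ?_
      have h2 : D / y ≤ ε / (2 * (|B| + 1)) / y ^ 2 := by
        rw [div_le_div_iff₀ hy (by positivity)]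
        have h3 : D * y ≤ ε / (2 * (|B| + 1)) := by
          rw [lt_div_iff₀ (by positivity)] at hyδ
          rw [le_div_iff₀ (by positivity)]
          nlinarith
        nlinarith
      calc |B| * (ε / (2 * (|B| + 1)) / y ^ 2 + D / y)
          ≤ (|B| + 1) * (ε / (2 * (|B| + 1)) / y ^ 2 + ε / (2 * (|B| + 1)) / y ^ 2) := by
            have h4 : 0 ≤ D / y := by positivity
            have h5 : 0 ≤ ε / (2 * (|B| + 1)) / y ^ 2 := by positivity
            gcongr
            linarith
        _ = ε / y ^ 2 := by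
            field_simp
            ring)
    (by
      intro η hη
      obtain ⟨C, hC, h⟩ := hlow η hη
      refine ⟨C, fun z hz => (h z hz).trans ?_⟩
      have h1 : (1 : ℝ) ≤ (1 + ‖z‖) ^ 1 := by
        rw [pow_one]
        linarith [norm_nonneg z]
      have h2 := Real.exp_pos (η / |z.im|)
      have h3 : C ≤ C * (1 + ‖z‖) ^ 1 := le_mul_of_one_le_right hC h1
      exact mul_le_mul_of_nonneg_right h3 h2.le)
    (by
      refine ⟨A * Real.exp 4, fun z hz hzρ => ?_⟩
      have him : 0 < |z.im| := abs_pos.mpr hz.ne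
      have himle := Complex.abs_im_le_norm z
      have hE : (0 : ℝ) ≤ A * Real.exp 4 := by positivity
      have hone : (1 : ℝ) ≤ (1 + ‖z‖) ^ 1 / |z.im| := by
        rw [pow_one, le_div_iff₀ him, one_mul]
        linarith
      have hgoal : A * Real.exp 4 ≤ A * Real.exp 4 * (1 + ‖z‖) ^ 1 / |z.im| := by
        rw [mul_div_assoc]
        exact le_mul_of_one_le_right hE hone
      refine le_trans ?_ hgoal
      rcases le_total (1 / 2) |z.im| with h | h
      · refine (hcom z hz.ne).trans (mul_le_mul_of_nonneg_left ?_ hA0)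
        apply Real.exp_le_exp.mpr
        rw [div_le_iff₀ him]
        linarith
      · have h1 := hLrb A 1 hA0 one_pos K z.re (by
          refine hKd'.mono ?_
          intro w hw
          rw [Metric.mem_ball, dist_eq_norm] at hw
          intro hwp
          rw [hwp] at hw
          have h2 : ‖(p : ℂ) - ((z.re : ℝ) : ℂ)‖ = |p - z.re| := by
            rw [← Complex.ofReal_sub, Complex.norm_real, Real.norm_eq_abs]
          rw [h2] at hw
          have h3 := Complex.norm_le_abs_re_add_abs_im z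
          have h4 : |z.re| ≤ |p| + |p - z.re| := by
            have : z.re = p - (p - z.re) := by ring
            calc |z.re| = |p - (p - z.re)| := by rw [← this]
              _ ≤ |p| + |p - z.re| := abs_sub _ _
          linarith) (fun w _ hw => by
            exact hcom w hw) z (by
            have h2 : z - ((z.re : ℝ) : ℂ) = Complex.I * ((z.im : ℝ) : ℂ) := by
              apply Complex.ext <;> simp
            rw [h2, norm_mul, Complex.norm_I, one_mul, Complex.norm_real, Real.norm_eq_abs]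
            exact h)
        rw [mul_one] at h1
        exact h1)
  have hne : ∀ z : ℂ, z.im ≠ 0 → z - (p : ℂ) ≠ 0 := by
    intro z hz h
    apply hz
    rw [sub_eq_zero] at h
    rw [h]
    simp
  have hne' : ∀ z : ℂ, z.im ≠ 0 → z ≠ (p : ℂ) := fun z hz h => hne z hz (sub_eq_zero.mpr h)
  -- the difference
  obtain ⟨d, hd⟩ : ∃ d : ℂ, d = -(Complex.I * c) := ⟨_, rfl⟩
  obtain ⟨h, hh⟩ : ∃ h : ℝ → ℂ, h = fun t => P t - d * expR p t := ⟨_, rfl⟩
  have hexpm : AEStronglyMeasurable (expR p) volume := (expR_measurable p).aestronglyMeasurable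
  have hhm : AEStronglyMeasurable h volume := by
    rw [hh]
    exact hPm.sub (hexpm.const_mul d)
  have hhB : ∀ᵐ t : ℝ, ‖h t‖ ≤ (|B| + ‖d‖) * φ t := by
    filter_upwards [hB] with t ht
    rw [hh]
    have h1 := hφ.one_le t
    have hp := pos hφ t
    calc ‖P t - d * expR p t‖ ≤ ‖P t‖ + ‖d * expR p t‖ := norm_sub_le _ _
      _ ≤ |B| * φ t + ‖d‖ * φ t := by
          apply add_le_add
          · exact ht.trans (mul_le_mul_of_nonneg_right (le_abs_self B) hp.le)
          · rw [norm_mul, norm_expR, mul_one]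
            exact le_mul_of_one_le_right (norm_nonneg _) h1
      _ = _ := by ring
  have hI := Complex.I_mul_I
  have hIne := Complex.I_ne_zero
  -- transform above
  have habove : ∀ z : ℂ, 0 < z.im →
      ∫ t in Set.Ioi (0 : ℝ), h t * Complex.exp (Complex.I * z * t) = 0 := by
    intro z hz
    have i1 := intble_pos hφ hPm hB hz
    obtain ⟨i2, i3⟩ := int_expR_pos hz p
    have e : (fun t : ℝ => h t * Complex.exp (Complex.I * z * t)) = fun t : ℝ =>
        P t * Complex.exp (Complex.I * z * t) - d * (expR p t * Complex.exp (Complex.I * z * t)) := by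
      ext1 t
      rw [hh]
      ring
    rw [e, integral_sub i1 (i2.const_mul d), integral_const_mul, i3, ← hKpos z hz,
      hc z (hne' z hz.ne'), hd]
    have hzp := hne z hz.ne'
    field_simp
    ring
  have hbelow : ∀ z : ℂ, z.im < 0 →
      ∫ t in Set.Ioi (0 : ℝ), h (-t) * Complex.exp (Complex.I * z * ((-t : ℝ) : ℂ)) = 0 := by
    intro z hz
    have i1 := intble_neg hφ hPm hB hz
    obtain ⟨i2, i3⟩ := int_expR_neg hz p
    have e : (fun t : ℝ => h (-t) * Complex.exp (Complex.I * z * ((-t : ℝ) : ℂ))) = fun t : ℝ =>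
        P (-t) * Complex.exp (Complex.I * z * ((-t : ℝ) : ℂ)) -
          d * (expR p (-t) * Complex.exp (Complex.I * z * ((-t : ℝ) : ℂ))) := by
      ext1 t
      rw [hh]
      ring
    rw [e, integral_sub i1 (i2.const_mul d), integral_const_mul, i3, ← refl_int]
    have h1 := hKneg z hz
    rw [hc z (hne' z hz.ne)] at h1
    have h2 : ∫ t in Set.Iio (0 : ℝ), P t * Complex.exp (Complex.I * z * t) =
        -(c / (z - (p : ℂ))) := by
      rw [h1, neg_neg]
    rw [h2, hd]
    have hzp := hne z hz.ne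
    field_simp
    ring
  -- uniqueness
  have hr : ∀ᵐ t : ℝ, 0 < t → h t = 0 := by
    apply uniq hhm
    · have h1 := intble_pos hφ hhm hhB (z := Complex.I) (by simp)
      refine h1.congr_fun ?_ measurableSet_Ioi
      intro t _
      simp only
      congr 1
      push_cast
      rw [hI]
      congr 1
      ring
    · intro z hz
      rw [← habove (-z + Complex.I) (by
        simp only [Complex.add_im, Complex.neg_im, Complex.I_im]
        linarith)]
      apply setIntegral_congr_fun measurableSet_Ioi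
      intro t _
      simp only
      rw [mul_assoc, ← Complex.exp_add]
      congr 2
      linear_combination (-(t : ℂ)) * hI
  have hl : ∀ᵐ t : ℝ, 0 < t → h (-t) = 0 := by
    have hhm' : AEStronglyMeasurable (fun t : ℝ => h (-t)) volume :=
      hhm.comp_quasiMeasurePreserving
        (Measure.measurePreserving_neg (volume : Measure ℝ)).quasiMeasurePreserving
    apply uniq hhm'
    · have h1 := intble_neg hφ hhm hhB (z := -Complex.I) (by simp)
      refine h1.congr_fun ?_ measurableSet_Ioi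
      intro t _
      simp only
      congr 1
      push_cast
      congr 1
      linear_combination (t : ℂ) * hI
    · intro z hz
      rw [← hbelow (z - Complex.I) (by
        simp only [Complex.sub_im, Complex.I_im]
        linarith)]
      apply setIntegral_congr_fun measurableSet_Ioi
      intro t _
      simp only
      rw [mul_assoc, ← Complex.exp_add]
      congr 2
      push_cast
      linear_combination (-(t : ℂ)) * hI
  refine ⟨d, ?_⟩
  have h0 : ∀ᵐ t : ℝ, t ≠ 0 := by
    have : volume ({0} : Set ℝ) = 0 := by simp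
    exact compl_mem_ae_iff.mpr this
  filter_upwards [hr, ae_neg hl, h0] with t h1 h2 h3
  have h4 : h t = 0 := by
    rcases lt_or_gt_of_ne h3 with h5 | h5
    · have h6 := h2 (by linarith)
      rwa [neg_neg] at h6
    · exact h1 h5
  rw [hh] at h4
  exact sub_eq_zero.mp h4

end

end Pool.Agent.WK6
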