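import Pool.Agent.WK6.Stmts
import Pool.Agent.WK2.Reg

/-!
# MP_7d2497_an, squad WK6, row RG2 (helper20): regularity of the weights below `exp (δ √|t|)`
-/

set_option autoImplicit false

namespace Pool.Agent.WK6

open MeasureTheory Filter Topology Complex SchwartzMap
open Pool.Agent.H78E Pool.Agent.WK Pool.Agent.WK2

noncomputable section

namespace Rg2

/-- Transform zero for `ρ ≤ |x|`. -/
def BL (g : ℝ → ℂ) (ρ : ℝ) : Prop :=
  ∀ x : ℝ, ρ ≤ |x| → ∫ u : ℝ, g u * Complex.exp (-(Complex.I * (u : ℂ) * (x : ℂ))) = 0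

theorem int_exp (a u : ℝ) : ∫ s in (-a)..a, Complex.exp (Complex.I * (u : ℂ) * (s : ℂ)) =
    2 * (a : ℂ) * (Real.sinc (a * u) : ℂ) := by
  by_cases hu : u = 0
  · subst hu
    have h1 : ∀ s : ℝ, Complex.exp (Complex.I * ((0 : ℝ) : ℂ) * (s : ℂ)) = 1 := by
      intro s
      simp
    simp only [h1, mul_zero, Real.sinc_zero, Complex.ofReal_one, mul_one]
    rw [intervalIntegral.integral_const]
    simp
    ring
  · have h1 : ∀ s : ℝ, Complex.exp (Complex.I * (u : ℂ) * (s : ℂ)) =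
        (fun t : ℝ => Complex.exp ((t : ℂ) * Complex.I)) (u * s) := by
      intro s
      simp only
      congr 1
      push_cast
      ring
    simp only [h1]
    rw [intervalIntegral.integral_comp_mul_left (fun t : ℝ => Complex.exp ((t : ℂ) * Complex.I)) hu]
    have h2 : u * -a = -(u * a) := by ring
    rw [h2, integral_exp_mul_I_eq_sinc, mul_comm a u]
    rw [Complex.real_smul]
    have hu' : (u : ℂ) ≠ 0 := by exact_mod_cast hu
    push_cast
    field_simp

theorem band_mul {g : ℝ → ℂ} (hg : Integrable g) {ρ a : ℝ} (ha : 0 < a) (h : BL g ρ) :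
    BL (fun u => g u * (Real.sinc (a * u) : ℂ)) (ρ + a) := by
  intro x hx
  have h0 : ∫ s in (-a)..a, ∫ u : ℝ,
      g u * Complex.exp (-(Complex.I * (u : ℂ) * ((x - s : ℝ) : ℂ))) = 0 := by
    rw [intervalIntegral.integral_congr (g := fun _ => (0 : ℂ))]
    · simp
    · intro s hs
      rw [Set.uIcc_of_le (by linarith)] at hs
      apply h
      have h1 : |s| ≤ a := abs_le.2 ⟨hs.1, hs.2⟩
      have h2 := abs_sub_abs_le_abs_sub x s
      linarith
  have hint : Integrable (Function.uncurry fun (s u : ℝ) =>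
      g u * Complex.exp (-(Complex.I * (u : ℂ) * ((x - s : ℝ) : ℂ))))
      ((volume.restrict (Set.uIoc (-a) a)).prod volume) := by
    have h1 : Integrable (fun z : ℝ × ℝ => (1 : ℂ) * g z.2)
        ((volume.restrict (Set.uIoc (-a) a)).prod volume) := by
      have hfin : IsFiniteMeasure (volume.restrict (Set.uIoc (-a) a)) := ⟨by
        rw [Measure.restrict_apply_univ, Set.uIoc, Real.volume_Ioc]
        exact ENNReal.ofReal_lt_top⟩
      exact (integrable_const (1 : ℂ)).mul_prod hg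
    have h2 : (Function.uncurry fun (s u : ℝ) =>
      g u * Complex.exp (-(Complex.I * (u : ℂ) * ((x - s : ℝ) : ℂ)))) =
      fun z : ℝ × ℝ => ((1 : ℂ) * g z.2) *
        Complex.exp (-(Complex.I * (z.2 : ℂ) * ((x - z.1 : ℝ) : ℂ))) := by
      ext z
      obtain ⟨s, u⟩ := z
      simp only [Function.uncurry_apply_pair, one_mul]
    rw [h2]
    apply h1.mul_bdd (c := 1)
    · apply Continuous.aestronglyMeasurable
      fun_prop
    · refine Eventually.of_forall fun z => ?_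
      rw [Complex.norm_exp]
      have : (-(Complex.I * (z.2 : ℂ) * ((x - z.1 : ℝ) : ℂ))).re = 0 := by
        simp
      rw [this, Real.exp_zero]
  rw [intervalIntegral_integral_swap hint] at h0
  have h3 : ∀ u : ℝ, ∫ s in (-a)..a,
      g u * Complex.exp (-(Complex.I * (u : ℂ) * ((x - s : ℝ) : ℂ))) =
      (2 * (a : ℂ)) * (g u * (Real.sinc (a * u) : ℂ) *
        Complex.exp (-(Complex.I * (u : ℂ) * (x : ℂ)))) := by
    intro u
    have h4 : ∀ s : ℝ, g u * Complex.exp (-(Complex.I * (u : ℂ) * ((x - s : ℝ) : ℂ))) =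
        (g u * Complex.exp (-(Complex.I * (u : ℂ) * (x : ℂ)))) *
          Complex.exp (Complex.I * (u : ℂ) * (s : ℂ)) := by
      intro s
      rw [mul_assoc (g u), ← Complex.exp_add]
      congr 2
      push_cast
      ring
    simp only [h4]
    rw [intervalIntegral.integral_const_mul, int_exp]
    ring
  simp only [h3] at h0
  rw [integral_const_mul] at h0
  have h5 : (2 * (a : ℂ)) ≠ 0 := by
    have : (a : ℂ) ≠ 0 := by exact_mod_cast ha.ne'
    simp [this]
  exact (mul_eq_zero.1 h0).resolve_left h5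

/-- Finite products. -/
def V (κ : ℝ) (N : ℕ) (t : ℝ) : ℝ :=
  ∏ j ∈ Finset.range N, Real.sinc (κ / ((j : ℝ) + 1) ^ 2 * t) ^ 2

theorem V_zero (κ t : ℝ) : V κ 0 t = 1 := by
  simp [V]

theorem V_succ (κ : ℝ) (N : ℕ) (t : ℝ) :
    V κ (N + 1) t = V κ N t * Real.sinc (κ / ((N : ℝ) + 1) ^ 2 * t) ^ 2 := by
  simp [V, Finset.prod_range_succ]

theorem sinc_sq_le_one (x : ℝ) : Real.sinc x ^ 2 ≤ 1 := by
  have h := Real.abs_sinc_le_one x
  rw [← sq_abs]
  exact pow_le_one₀ (abs_nonneg _) h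

theorem V_nonneg (κ : ℝ) (N : ℕ) (t : ℝ) : 0 ≤ V κ N t :=
  Finset.prod_nonneg fun _ _ => sq_nonneg _

theorem V_anti (κ t : ℝ) : Antitone fun N => V κ N t := by
  refine antitone_nat_of_succ_le fun N => ?_
  rw [V_succ]
  exact mul_le_of_le_one_right (V_nonneg _ _ _) (sinc_sq_le_one _)

theorem V_le_one (κ : ℝ) (N : ℕ) (t : ℝ) : V κ N t ≤ 1 := by
  rw [← V_zero κ t]
  exact V_anti κ t (Nat.zero_le N)

theorem V_cont (κ : ℝ) (N : ℕ) : Continuous (V κ N) := by
  unfold V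
  refine continuous_finsetProd _ fun j _ => ?_
  exact (Real.continuous_sinc.comp (continuous_const.mul continuous_id)).pow 2

theorem sinc_sq_ge (u : ℝ) : 1 - u ^ 2 ≤ Real.sinc u ^ 2 := by
  have key : ∀ v : ℝ, 0 < v → 1 - v ^ 2 ≤ Real.sinc v ^ 2 := by
    intro v hv
    rcases le_or_gt 1 (v ^ 2) with h | h
    · have := sq_nonneg (Real.sinc v)
      linarith
    · have h1 := Real.sin_gt_sub_cube hv
      have h2 : 1 - v ^ 2 / 6 ≤ Real.sinc v := by
        rw [Real.sinc_of_ne_zero hv.ne', le_div_iff₀ hv]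
        nlinarith
      have h3 : 0 ≤ 1 - v ^ 2 / 6 := by nlinarith
      have h4 : (1 - v ^ 2 / 6) ^ 2 ≤ Real.sinc v ^ 2 := pow_le_pow_left₀ h3 h2 2
      nlinarith [sq_nonneg (v ^ 2)]
  rcases lt_trichotomy u 0 with h | h | h
  · have := key (-u) (by linarith)
    rw [Real.sinc_neg] at this
    have h2 : (-u) ^ 2 = u ^ 2 := by ring
    rwa [h2] at this
  · subst h
    simp
  · exact key u h

theorem sinc_sq_le (u : ℝ) (hu : u ≠ 0) : Real.sinc u ^ 2 ≤ (u ^ 2)⁻¹ := by
  rw [Real.sinc_of_ne_zero hu, div_pow, div_eq_mul_inv]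
  have h1 : Real.sin u ^ 2 ≤ 1 := Real.sin_sq_le_one u
  have h2 : 0 ≤ (u ^ 2)⁻¹ := by positivity
  nlinarith

theorem V_ge (κ : ℝ) (N : ℕ) (t : ℝ) :
    1 - κ ^ 2 * t ^ 2 * (2 - 2 / ((N : ℝ) + 1)) ≤ V κ N t := by
  induction N with
  | zero =>
    rw [V_zero]
    norm_num
  | succ N ih =>
    rw [V_succ]
    have hN : (0 : ℝ) ≤ N := Nat.cast_nonneg N
    have h1 := sinc_sq_ge (κ / ((N : ℝ) + 1) ^ 2 * t)
    have h2 : (κ / ((N : ℝ) + 1) ^ 2 * t) ^ 2 ≤ κ ^ 2 * t ^ 2 * (1 / ((N : ℝ) + 1) ^ 2) := by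
      have h3 : (κ / ((N : ℝ) + 1) ^ 2 * t) ^ 2 =
          κ ^ 2 * t ^ 2 * ((1 / ((N : ℝ) + 1) ^ 2) * (1 / ((N : ℝ) + 1) ^ 2)) := by
        field_simp
      rw [h3]
      have h4 : 1 / ((N : ℝ) + 1) ^ 2 ≤ 1 := by
        rw [div_le_one (by positivity)]
        nlinarith
      have h5 : 0 ≤ 1 / ((N : ℝ) + 1) ^ 2 := by positivity
      apply mul_le_mul_of_nonneg_left _ (by positivity)
      nlinarith
    have h6 : κ ^ 2 * t ^ 2 * (1 / ((N : ℝ) + 1) ^ 2) ≤
        κ ^ 2 * t ^ 2 * (2 / ((N : ℝ) + 1) - 2 / ((N : ℝ) + 2)) := by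
      apply mul_le_mul_of_nonneg_left _ (by positivity)
      rw [div_sub_div _ _ (by positivity) (by positivity), div_le_div_iff₀ (by positivity)
        (by positivity)]
      nlinarith
    have h7 : ((N + 1 : ℕ) : ℝ) + 1 = (N : ℝ) + 2 := by
      push_cast
      ring
    rw [h7]
    have h8 := V_le_one κ N t
    have h9 := V_nonneg κ N t
    obtain ⟨a, ha⟩ : ∃ a, a = (κ / ((N : ℝ) + 1) ^ 2 * t) ^ 2 := ⟨_, rfl⟩
    obtain ⟨s, hs⟩ : ∃ s, s = Real.sinc (κ / ((N : ℝ) + 1) ^ 2 * t) ^ 2 := ⟨_, rfl⟩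
    rw [← ha, ← hs] at h1
    rw [← ha] at h2
    rw [← hs]
    have ha0 : 0 ≤ a := by rw [ha]; positivity
    have h10 : V κ N t * s ≥ V κ N t - a := by
      have : V κ N t * s ≥ V κ N t * (1 - a) := mul_le_mul_of_nonneg_left h1 h9
      nlinarith
    nlinarith

theorem V_band {g : ℝ → ℂ} (hg : Integrable g) {ρ κ : ℝ} (hκ : 0 < κ) (h : BL g ρ) (N : ℕ) :
    BL (fun u => g u * (V κ N u : ℂ)) (ρ + 2 * κ * (2 - 2 / ((N : ℝ) + 1))) := by
  induction N with
  | zero =>
    have h1 : (fun u => g u * (V κ 0 u : ℂ)) = g := by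
      ext u
      rw [V_zero]
      simp
    rw [h1]
    intro x hx
    apply h
    norm_num at hx
    exact hx
  | succ N ih =>
    have hN : (0 : ℝ) ≤ N := Nat.cast_nonneg N
    have ha : 0 < κ / ((N : ℝ) + 1) ^ 2 := by positivity
    have hi1 : Integrable (fun u => g u * (V κ N u : ℂ)) := by
      apply hg.mul_bdd (c := 1)
      · exact (Complex.continuous_ofReal.comp (V_cont κ N)).aestronglyMeasurable
      · refine Eventually.of_forall fun u => ?_
        rw [Complex.norm_real, Real.norm_of_nonneg (V_nonneg _ _ _)]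
        exact V_le_one _ _ _
    have hi2 : Integrable (fun u => (g u * (V κ N u : ℂ)) *
        (Real.sinc (κ / ((N : ℝ) + 1) ^ 2 * u) : ℂ)) := by
      apply hi1.mul_bdd (c := 1)
      · exact (Complex.continuous_ofReal.comp (Real.continuous_sinc.comp
          (continuous_const.mul continuous_id))).aestronglyMeasurable
      · refine Eventually.of_forall fun u => ?_
        rw [Complex.norm_real, Real.norm_eq_abs]
        exact Real.abs_sinc_le_one _
    have h2 := band_mul hi2 ha (band_mul hi1 ha ih)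
    have h3 : (fun u => g u * (V κ (N + 1) u : ℂ)) = fun u => ((g u * (V κ N u : ℂ)) *
        (Real.sinc (κ / ((N : ℝ) + 1) ^ 2 * u) : ℂ)) *
        (Real.sinc (κ / ((N : ℝ) + 1) ^ 2 * u) : ℂ) := by
      ext u
      rw [V_succ]
      push_cast
      ring
    rw [h3]
    intro x hx
    apply h2
    refine le_trans ?_ hx
    have h7 : ((N + 1 : ℕ) : ℝ) + 1 = (N : ℝ) + 2 := by
      push_cast
      ring
    rw [h7]
    have h6 : 1 / ((N : ℝ) + 1) ^ 2 ≤ 2 / ((N : ℝ) + 1) - 2 / ((N : ℝ) + 2) := by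
      rw [div_sub_div _ _ (by positivity) (by positivity), div_le_div_iff₀ (by positivity)
        (by positivity)]
      nlinarith
    have h8 : κ / ((N : ℝ) + 1) ^ 2 = κ * (1 / ((N : ℝ) + 1) ^ 2) := by ring
    rw [h8]
    nlinarith [mul_le_mul_of_nonneg_left h6 hκ.le]

theorem V_dec {κ : ℝ} (hκ : 0 < κ) (N : ℕ) (t : ℝ) (h : Real.exp 1 * (N : ℝ) ^ 2 ≤ κ * |t|) :
    V κ N t ≤ Real.exp (-(2 * (N : ℝ))) := by
  have h1 : ∀ j ∈ Finset.range N, Real.sinc (κ / ((j : ℝ) + 1) ^ 2 * t) ^ 2 ≤ Real.exp (-2) := by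
    intro j hj
    have hj' : (j : ℝ) + 1 ≤ N := by
      have := Finset.mem_range.1 hj
      exact_mod_cast this
    have hj0 : (0 : ℝ) ≤ j := Nat.cast_nonneg j
    have h2 : Real.exp 1 ≤ κ / ((j : ℝ) + 1) ^ 2 * |t| := by
      rw [div_mul_eq_mul_div, le_div_iff₀ (by positivity)]
      refine le_trans ?_ h
      apply mul_le_mul_of_nonneg_left _ (Real.exp_pos 1).le
      exact pow_le_pow_left₀ (by positivity) hj' 2
    have ht : t ≠ 0 := by
      intro h0
      rw [h0, abs_zero, mul_zero] at h2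
      linarith [Real.exp_pos 1]
    have hu : κ / ((j : ℝ) + 1) ^ 2 * t ≠ 0 := by
      apply mul_ne_zero _ ht
      positivity
    refine (sinc_sq_le _ hu).trans ?_
    have h3 : (κ / ((j : ℝ) + 1) ^ 2 * t) ^ 2 = (κ / ((j : ℝ) + 1) ^ 2 * |t|) ^ 2 := by
      rw [mul_pow, mul_pow, sq_abs]
    rw [h3, Real.exp_neg]
    apply inv_anti₀ (Real.exp_pos 2)
    have h4 : Real.exp 2 = Real.exp 1 ^ 2 := by
      rw [← Real.exp_nat_mul]
      norm_num
    rw [h4]
    exact pow_le_pow_left₀ (Real.exp_pos 1).le h2 2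
  have h5 : V κ N t ≤ ∏ j ∈ Finset.range N, Real.exp (-2) :=
    Finset.prod_le_prod (fun _ _ => sq_nonneg _) h1
  rw [Finset.prod_const, Finset.card_range, ← Real.exp_nat_mul] at h5
  refine h5.trans (le_of_eq ?_)
  congr 1
  ring

/-- The infinite product. -/
def W (κ : ℝ) (t : ℝ) : ℝ := ⨅ N : ℕ, V κ N t

theorem W_bdd (κ t : ℝ) : BddBelow (Set.range fun N : ℕ => V κ N t) :=
  ⟨0, by rintro _ ⟨N, rfl⟩; exact V_nonneg κ N t⟩

theorem W_tendsto (κ t : ℝ) : Tendsto (fun N : ℕ => V κ N t) atTop (𝓝 (W κ t)) :=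
  tendsto_atTop_ciInf (V_anti κ t) (W_bdd κ t)

theorem W_le (κ : ℝ) (N : ℕ) (t : ℝ) : W κ t ≤ V κ N t := ciInf_le (W_bdd κ t) N

theorem W_nonneg (κ t : ℝ) : 0 ≤ W κ t := le_ciInf fun N => V_nonneg κ N t

theorem W_le_one (κ t : ℝ) : W κ t ≤ 1 := (W_le κ 0 t).trans (V_le_one κ 0 t)

theorem W_meas (κ : ℝ) : Measurable (W κ) := by
  refine measurable_of_tendsto_metrizable (fun N => (V_cont κ N).measurable) ?_
  rw [tendsto_pi_nhds]
  exact W_tendsto κ

theorem W_ge (κ t : ℝ) : 1 - 2 * κ ^ 2 * t ^ 2 ≤ W κ t := by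
  refine le_ciInf fun N => (le_trans ?_ (V_ge κ N t))
  have h1 : 0 ≤ 2 / ((N : ℝ) + 1) := by positivity
  have h2 : 0 ≤ κ ^ 2 * t ^ 2 := by positivity
  nlinarith

theorem W_dec {κ : ℝ} (hκ : 0 < κ) (t : ℝ) :
    W κ t ≤ Real.exp 2 * Real.exp (-(2 * Real.sqrt (κ / Real.exp 1) * Real.sqrt |t|)) := by
  have he := Real.exp_pos 1
  have h0 : 0 ≤ κ * |t| / Real.exp 1 := by positivity
  obtain ⟨q, hq⟩ : ∃ q, q = Real.sqrt (κ * |t| / Real.exp 1) := ⟨_, rfl⟩
  have hq0 : 0 ≤ q := by rw [hq]; exact Real.sqrt_nonneg _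
  have hq2 : q ^ 2 = κ * |t| / Real.exp 1 := by rw [hq]; exact Real.sq_sqrt h0
  have h1 : (⌊q⌋₊ : ℝ) ≤ q := Nat.floor_le hq0
  have h2 : q < (⌊q⌋₊ : ℝ) + 1 := Nat.lt_floor_add_one q
  have h3 : Real.exp 1 * (⌊q⌋₊ : ℝ) ^ 2 ≤ κ * |t| := by
    have h4 : (⌊q⌋₊ : ℝ) ^ 2 ≤ q ^ 2 := pow_le_pow_left₀ (Nat.cast_nonneg _) h1 2
    rw [hq2, le_div_iff₀ he] at h4
    linarith
  refine (W_le κ ⌊q⌋₊ t).trans ((V_dec hκ ⌊q⌋₊ t h3).trans ?_)
  rw [← Real.exp_add]
  apply Real.exp_le_exp.2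
  have h5 : q = Real.sqrt (κ / Real.exp 1) * Real.sqrt |t| := by
    rw [hq, ← Real.sqrt_mul (by positivity)]
    congr 1
    ring
  rw [mul_assoc, ← h5]
  linarith

/-- The basic band-limited function. -/
theorem main : ∃ (b : ℝ → ℂ) (r δ : ℝ), Measurable b ∧ 0 < r ∧ 0 < δ ∧
    Integrable (fun t : ℝ => Real.exp (δ * Real.sqrt |t|) * ‖b t‖) ∧ ∫ t : ℝ, b t = 1 ∧ BL b r := by
  obtain ⟨b0, hb1, hb2⟩ := exists_bandlimited
  have hi0 : Integrable (fun t : ℝ => b0 t) := b0.integrable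
  have hi2 : Integrable (fun t : ℝ => t ^ 2 * ‖b0 t‖) := by
    have := b0.integrable_pow_mul volume 2
    refine this.congr (Eventually.of_forall fun t => ?_)
    simp only [Real.norm_eq_abs, sq_abs]
  obtain ⟨K, hK⟩ : ∃ K, K = ∫ t : ℝ, t ^ 2 * ‖b0 t‖ := ⟨_, rfl⟩
  have hK0 : 0 ≤ K := by
    rw [hK]
    exact integral_nonneg fun t => by positivity
  obtain ⟨κ, hκd⟩ : ∃ κ : ℝ, κ = 1 / (2 * (1 + K)) := ⟨_, rfl⟩
  have hκ : 0 < κ := by rw [hκd]; positivity
  have hκK : 2 * κ ^ 2 * K ≤ 1 / 2 := by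
    have h1 : κ * (2 * (1 + K)) = 1 := by
      rw [hκd]
      field_simp
    nlinarith [sq_nonneg κ, mul_pos hκ hκ]
  have hWm : Measurable fun t : ℝ => (W κ t : ℂ) := Complex.measurable_ofReal.comp (W_meas κ)
  have hiW : Integrable (fun t : ℝ => b0 t * (W κ t : ℂ)) := by
    apply hi0.mul_bdd (c := 1) hWm.aestronglyMeasurable
    refine Eventually.of_forall fun u => ?_
    rw [Complex.norm_real, Real.norm_of_nonneg (W_nonneg _ _)]
    exact W_le_one _ _
  have hband : BL (fun t => b0 t * (W κ t : ℂ)) (2 * Real.pi + 4 * κ) := by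
    intro x hx
    have h1 : Tendsto (fun N : ℕ => ∫ u : ℝ, b0 u * (V κ N u : ℂ) *
        Complex.exp (-(Complex.I * (u : ℂ) * (x : ℂ)))) atTop (𝓝 (∫ u : ℝ, b0 u * (W κ u : ℂ) *
        Complex.exp (-(Complex.I * (u : ℂ) * (x : ℂ))))) := by
      apply tendsto_integral_of_dominated_convergence (fun u => ‖b0 u‖)
      · intro N
        apply Continuous.aestronglyMeasurable
        have := V_cont κ N
        have h := b0.continuous
        fun_prop
      · exact hi0.norm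
      · intro N
        refine Eventually.of_forall fun u => ?_
        rw [norm_mul, norm_mul, Complex.norm_real, Real.norm_of_nonneg (V_nonneg _ _ _),
          Complex.norm_exp]
        have : (-(Complex.I * (u : ℂ) * (x : ℂ))).re = 0 := by
          simp
        rw [this, Real.exp_zero, mul_one]
        exact mul_le_of_le_one_right (norm_nonneg _) (V_le_one _ _ _)
      · refine Eventually.of_forall fun u => ?_
        apply Tendsto.mul _ tendsto_const_nhds
        apply Tendsto.mul tendsto_const_nhds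
        exact (Complex.continuous_ofReal.tendsto _).comp (W_tendsto κ u)
    have h2 : ∀ N : ℕ, ∫ u : ℝ, b0 u * (V κ N u : ℂ) *
        Complex.exp (-(Complex.I * (u : ℂ) * (x : ℂ))) = 0 := by
      intro N
      apply V_band hi0 hκ hb2 N
      refine le_trans ?_ hx
      have h3 : 0 ≤ 2 / ((N : ℝ) + 1) := by positivity
      nlinarith [mul_nonneg hκ.le h3]
    simp only [h2] at h1
    exact (tendsto_nhds_unique h1 tendsto_const_nhds)
  obtain ⟨c, hc⟩ : ∃ c : ℂ, c = ∫ t : ℝ, b0 t * (W κ t : ℂ) := ⟨_, rfl⟩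
  have hc0 : c ≠ 0 := by
    intro h0
    have h1 : ‖∫ t : ℝ, (b0 t - b0 t * (W κ t : ℂ))‖ ≤ ∫ t : ℝ, 2 * κ ^ 2 * (t ^ 2 * ‖b0 t‖) := by
      apply norm_integral_le_of_norm_le (hi2.const_mul _)
      refine Eventually.of_forall fun t => ?_
      have h2 : b0 t - b0 t * (W κ t : ℂ) = b0 t * ((1 - W κ t : ℝ) : ℂ) := by
        push_cast
        ring
      rw [h2, norm_mul, Complex.norm_real, Real.norm_of_nonneg (by linarith [W_le_one κ t])]
      have h3 := W_ge κ t
      have h4 := norm_nonneg (b0 t)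
      nlinarith
    rw [integral_sub hi0 hiW, hb1, ← hc, h0, integral_const_mul, ← hK] at h1
    norm_num at h1
    linarith
  have hi1 : ∀ t : ℝ, ‖c⁻¹ * (b0 t * (W κ t : ℂ))‖ ≤ (‖c⁻¹‖ * Real.exp 2) * ‖b0 t‖ *
      Real.exp (-(2 * Real.sqrt (κ / Real.exp 1) * Real.sqrt |t|)) := by
    intro t
    rw [norm_mul, norm_mul, Complex.norm_real, Real.norm_of_nonneg (W_nonneg _ _)]
    have h1 := W_dec hκ t
    calc ‖c⁻¹‖ * (‖b0 t‖ * W κ t) ≤ ‖c⁻¹‖ * (‖b0 t‖ * (Real.exp 2 *
          Real.exp (-(2 * Real.sqrt (κ / Real.exp 1) * Real.sqrt |t|)))) := by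
          apply mul_le_mul_of_nonneg_left _ (norm_nonneg _)
          exact mul_le_mul_of_nonneg_left h1 (norm_nonneg _)
      _ = _ := by ring
  have hbm : Measurable fun t : ℝ => c⁻¹ * (b0 t * (W κ t : ℂ)) :=
    measurable_const.mul (b0.continuous.measurable.mul hWm)
  refine ⟨fun t => c⁻¹ * (b0 t * (W κ t : ℂ)), 2 * Real.pi + 4 * κ,
    2 * Real.sqrt (κ / Real.exp 1), hbm, by positivity, ?_, ?_, ?_, ?_⟩
  · have : 0 < κ / Real.exp 1 := by positivity
    have := Real.sqrt_pos.2 this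
    positivity
  · have h1 : Integrable (fun t : ℝ => (‖c⁻¹‖ * Real.exp 2) * ‖b0 t‖) := hi0.norm.const_mul _
    refine h1.mono' ?_ (Eventually.of_forall fun t => ?_)
    · apply Measurable.aestronglyMeasurable
      apply Measurable.mul _ hbm.norm
      fun_prop
    · rw [Real.norm_of_nonneg (by positivity)]
      have h2 := hi1 t
      have h3 := Real.exp_pos (2 * Real.sqrt (κ / Real.exp 1) * Real.sqrt |t|)
      calc Real.exp (2 * Real.sqrt (κ / Real.exp 1) * Real.sqrt |t|) *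
            ‖c⁻¹ * (b0 t * (W κ t : ℂ))‖
          ≤ Real.exp (2 * Real.sqrt (κ / Real.exp 1) * Real.sqrt |t|) *
            ((‖c⁻¹‖ * Real.exp 2) * ‖b0 t‖ *
            Real.exp (-(2 * Real.sqrt (κ / Real.exp 1) * Real.sqrt |t|))) :=
            mul_le_mul_of_nonneg_left h2 h3.le
        _ = (‖c⁻¹‖ * Real.exp 2) * ‖b0 t‖ := by
            rw [Real.exp_neg]
            field_simp
  · rw [integral_const_mul, ← hc, inv_mul_cancel₀ hc0]
  · intro x hx
    have h1 := hband x hx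
    have h2 : ∀ u : ℝ, c⁻¹ * (b0 u * (W κ u : ℂ)) *
        Complex.exp (-(Complex.I * (u : ℂ) * (x : ℂ))) = c⁻¹ * ((b0 u * (W κ u : ℂ)) *
        Complex.exp (-(Complex.I * (u : ℂ) * (x : ℂ)))) := fun u => by ring
    simp only [h2]
    rw [integral_const_mul, h1, mul_zero]

end Rg2

open Rg2 in
/-- ROW RG2. -/
theorem rg2 : Rg2Stmt := by
  intro φ hφ hφ0 hS
  obtain ⟨b, r, δ, hbm, hr, hδ, hi, h1, hband⟩ := Rg2.main
  refine ⟨?_, ?_⟩
  · obtain ⟨C, hC, hb⟩ := hS δ hδ
    refine ⟨b, fun u => C * Real.exp (δ * Real.sqrt |u|), r, ?_, ?_, hbm.aestronglyMeasurable,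
      ?_, h1, hband⟩
    · fun_prop
    · intro s u hsu
      refine (hb s).trans ?_
      apply mul_le_mul_of_nonneg_left _ hC.le
      apply Real.exp_le_exp.2
      exact mul_le_mul_of_nonneg_left (Real.sqrt_le_sqrt hsu) hδ.le
    · refine (hi.const_mul C).congr (Eventually.of_forall fun u => ?_)
      simp only
      ring
  · intro ρ hρ
    obtain ⟨L, hL⟩ : ∃ L : ℝ, L = ρ / r := ⟨_, rfl⟩
    have hL0 : 0 < L := by rw [hL]; positivity
    have hLs : 0 < Real.sqrt L := Real.sqrt_pos.2 hL0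
    obtain ⟨C, hC, hb⟩ := hS (δ * Real.sqrt L) (by positivity)
    have hbm' : Measurable fun u : ℝ => (L : ℂ) * b (L * u) :=
      measurable_const.mul (hbm.comp (measurable_const.mul measurable_id))
    refine ⟨fun u => (L : ℂ) * b (L * u), hbm'.aestronglyMeasurable, ?_, ?_, ?_⟩
    · have h2 := (hi.comp_mul_left' hL0.ne').const_mul (C * L)
      refine h2.mono' (hφ.mul hbm'.norm).aestronglyMeasurable (Eventually.of_forall fun u => ?_)
      rw [Real.norm_of_nonneg (mul_nonneg (hφ0 u) (norm_nonneg _)), norm_mul, Complex.norm_real,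
        Real.norm_of_nonneg hL0.le]
      have h3 := hb u
      have h4 : δ * Real.sqrt L * Real.sqrt |u| = δ * Real.sqrt |L * u| := by
        rw [abs_mul, abs_of_pos hL0, Real.sqrt_mul hL0.le]
        ring
      rw [h4] at h3
      calc φ u * (L * ‖b (L * u)‖) ≤ (C * Real.exp (δ * Real.sqrt |L * u|)) *
            (L * ‖b (L * u)‖) := by
            apply mul_le_mul_of_nonneg_right h3
            exact mul_nonneg hL0.le (norm_nonneg _)
        _ = C * L * (Real.exp (δ * Real.sqrt |L * u|) * ‖b (L * u)‖) := by ring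
    · rw [integral_const_mul, Measure.integral_comp_mul_left b L, h1, abs_of_pos (inv_pos.2 hL0)]
      rw [Complex.real_smul, mul_one, Complex.ofReal_inv]
      have : (L : ℂ) ≠ 0 := by exact_mod_cast hL0.ne'
      exact mul_inv_cancel₀ this
    · intro x hx
      have h2 : ∀ u : ℝ, (L : ℂ) * b (L * u) * Complex.exp (-(Complex.I * (u : ℂ) * (x : ℂ))) =
          (fun v : ℝ => (L : ℂ) * (b v * Complex.exp (-(Complex.I * (v : ℂ) *
            ((x / L : ℝ) : ℂ))))) (L * u) := by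
        intro u
        simp only
        rw [mul_assoc]
        congr 3
        have : (L : ℂ) ≠ 0 := by exact_mod_cast hL0.ne'
        push_cast
        field_simp
      simp only [h2]
      rw [Measure.integral_comp_mul_left (fun v : ℝ => (L : ℂ) * (b v * Complex.exp
        (-(Complex.I * (v : ℂ) * ((x / L : ℝ) : ℂ))))) L, integral_const_mul, hband]
      · simp
      · rw [abs_div, abs_of_pos hL0, le_div_iff₀ hL0, hL]
        rw [mul_div_cancel₀ _ hr.ne']
        exact hx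

end

end Pool.Agent.WK6
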