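import Pool.Agent.WK6.Stmts
import Pool.Agent.WK.Kit
import Pool.Agent.WK.Wlm
import Pool.Agent.Helper72_E.Bip

/-!
# XL2: local smallness by compactness
-/

set_option autoImplicit false

namespace Pool.Agent.WK6

open MeasureTheory Filter Topology Complex
open Pool.Agent.H78E Pool.Agent.WK Pool.Agent.WK2

noncomputable section

namespace H67

/-- the modulated regular function -/
theorem modulate {φ : ℝ → ℝ} {r : ℝ} {b : ℝ → ℂ} (hbm : AEStronglyMeasurable b volume)
    (hbi : Integrable (fun u : ℝ => φ u * ‖b u‖)) (hb1 : ∫ u : ℝ, b u = 1)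
    (hb0 : ∀ x : ℝ, r ≤ |x| →
      ∫ u : ℝ, b u * Complex.exp (-(Complex.I * (u : ℂ) * (x : ℂ))) = 0) (x : ℝ) :
    ∃ u : ℝ → ℂ, L1 φ u ∧ ∫ t : ℝ, u t * expR x t = 1 ∧
      ∀ y : ℝ, r ≤ |y - x| → FT u (y : ℂ) = 0 := by
  refine ⟨fun t => b t * expR (-x) t, ⟨?_, ?_⟩, ?_, ?_⟩
  · exact hbm.mul (expR_measurable _).aestronglyMeasurable
  · refine hbi.congr (Eventually.of_forall fun t => ?_)
    simp only [norm_mul, norm_expR, mul_one]
  · rw [← hb1]
    refine integral_congr_ae (Eventually.of_forall fun t => ?_)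
    have h : expR (-x) t * expR x t = 1 := by
      unfold expR
      rw [← Complex.exp_add]
      have : -(Complex.I * (t : ℂ) * ((-x : ℝ) : ℂ)) + -(Complex.I * (t : ℂ) * (x : ℂ)) = 0 := by
        push_cast
        ring
      rw [this, Complex.exp_zero]
    beta_reduce
    rw [mul_assoc, h, mul_one]
  · intro y hy
    rw [← hb0 (y - x) hy]
    unfold FT
    refine integral_congr_ae (Eventually.of_forall fun t => ?_)
    beta_reduce
    rw [mul_assoc]
    congr 1
    unfold expR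
    rw [← Complex.exp_add]
    congr 1
    push_cast
    ring

/-- normalisation of a counterexample -/
theorem normalise {φ : ℝ → ℝ} (hφ : IsWeight φ) {f : ℝ → ℂ} (hf : LP φ f) {ε : ℝ} (hε : 0 < ε)
    {S : Finset ℝ} {c : ℝ → ℂ} {B : ℝ} (h1 : ∀ t : ℝ, ‖ES S c t‖ ≤ B * φ t)
    (h2 : ε * B < ‖∑ x ∈ S, c x * FT f (x : ℂ)‖) :
    ∃ d : ℝ → ℂ, (∀ t : ℝ, ‖ES S d t‖ ≤ 1 * φ t) ∧ ε ≤ ‖∫ t, f t * ES S d t‖ := by
  have hpair : ∀ d : ℝ → ℂ, ∫ t, f t * ES S d t = ∑ x ∈ S, d x * FT f (x : ℂ) := by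
    intro d
    have h := pair_ES (LP.integrable hφ hf) S d 0
    simp only [add_zero] at h
    rw [h]
    refine Finset.sum_congr rfl fun x _ => ?_
    have h2 : expR x 0 = 1 := by
      unfold expR
      simp
    rw [h2, mul_one]
  have hB0 : 0 ≤ B := by
    by_contra h
    have h3 := mul_neg_of_neg_of_pos (not_le.mp h) (wpos hφ 0)
    linarith [norm_nonneg (ES S c 0), h1 0]
  have hB : 0 < B := by
    rcases hB0.lt_or_eq with h | h
    · exact h
    · exfalso
      have h3 : ∀ t, ES S c t = 0 := by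
        intro t
        have h4 := h1 t
        rw [← h, zero_mul] at h4
        exact norm_le_zero_iff.mp h4
      have h5 := hpair c
      simp only [h3, mul_zero, integral_zero] at h5
      rw [← h5, norm_zero, ← h, mul_zero] at h2
      exact lt_irrefl _ h2
  have hes : ∀ t, ES S (fun x => ((B⁻¹ : ℝ) : ℂ) * c x) t = ((B⁻¹ : ℝ) : ℂ) * ES S c t := by
    intro t
    unfold ES
    rw [Finset.mul_sum]
    refine Finset.sum_congr rfl fun x _ => ?_
    ring
  refine ⟨fun x => ((B⁻¹ : ℝ) : ℂ) * c x, ?_, ?_⟩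
  · intro t
    rw [hes, norm_mul, Complex.norm_real, Real.norm_eq_abs, abs_of_pos (inv_pos.mpr hB), one_mul,
      inv_mul_le_iff₀ hB]
    exact h1 t
  · rw [hpair]
    have h6 : ∑ x ∈ S, (((B⁻¹ : ℝ) : ℂ) * c x) * FT f (x : ℂ) =
        ((B⁻¹ : ℝ) : ℂ) * ∑ x ∈ S, c x * FT f (x : ℂ) := by
      rw [Finset.mul_sum]
      refine Finset.sum_congr rfl fun x _ => ?_
      ring
    rw [h6, norm_mul, Complex.norm_real, Real.norm_eq_abs, abs_of_pos (inv_pos.mpr hB),
      le_inv_mul_iff₀ hB]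
    linarith

end H67

/-- XL2. -/
theorem xl2 : Xl2Stmt := by
  intro φ hφ hreg hopt p f hf hfp ε hε
  by_contra hcon
  push Not at hcon
  have hn : ∀ n : ℕ, ∃ (S : Finset ℝ) (d : ℝ → ℂ), (∀ x ∈ S, |x - p| ≤ 1 / ((n : ℝ) + 1)) ∧
      (∀ t : ℝ, ‖ES S d t‖ ≤ 1 * φ t) ∧ ε ≤ ‖∫ t, f t * ES S d t‖ := by
    intro n
    obtain ⟨S, c, B, h1, h2, h3⟩ := hcon (1 / ((n : ℝ) + 1)) (by positivity)
    obtain ⟨d, h4, h5⟩ := H67.normalise hφ hf hε h2 h3
    exact ⟨S, d, h1, h4, h5⟩
  choose S d hS hd he using hn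
  set U : Ultrafilter ℕ := Ultrafilter.of atTop with hU
  have hUle : (U : Filter ℕ) ≤ atTop := Ultrafilter.of_le atTop
  obtain ⟨P, hP, hlim⟩ := wlm φ hφ U (fun n => ES (S n) (d n)) 1
    (fun n => (ES_cont _ _).aestronglyMeasurable) (fun n t => hd n t)
  -- the spectrum of the limit
  have hspec : Spec φ P ⊆ {p} := by
    intro x hx
    by_contra hxp
    have hxp' : x ≠ p := hxp
    have hr : 0 < |x - p| / 2 := by
      have := abs_pos.mpr (sub_ne_zero.mpr hxp')
      linarith
    obtain ⟨b, hbm, hbi, hb1, hb0⟩ := hreg (|x - p| / 2) hr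
    obtain ⟨u, hu, hu1, hu0⟩ := H67.modulate hbm hbi hb1 hb0 x
    rw [mem_Spec bipolar hφ hP] at hx
    have h1 := hx u hu ?_
    · rw [hu1] at h1
      exact one_ne_zero h1
    · intro s
      have hsh := (L1.shift hφ hu s).1
      have hl := hlim _ hsh
      rw [pair_shift]
      refine tendsto_nhds_unique hl ?_
      have hev : ∀ᶠ n : ℕ in (U : Filter ℕ), ∫ t : ℝ, u (t - s) * ES (S n) (d n) t = 0 := by
        apply hUle
        have h2 : ∀ᶠ n : ℕ in atTop, 1 / ((n : ℝ) + 1) < |x - p| / 2 :=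
          (tendsto_one_div_add_atTop_nhds_zero_nat).eventually (gt_mem_nhds hr)
        filter_upwards [h2] with n h3
        rw [← pair_shift, pair_ES (L1.integrable hφ hu)]
        refine Finset.sum_eq_zero fun y hy => ?_
        rw [hu0 y ?_, mul_zero]
        have h4 := hS n y hy
        have h5 : |x - p| ≤ |y - x| + |y - p| := by
          have := abs_sub_le x y p
          rw [abs_sub_comm x y] at this
          exact this
        linarith
      exact tendsto_const_nhds.congr' (by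
        filter_upwards [hev] with n h3
        exact h3.symm)
  obtain ⟨c, hc⟩ := hopt P hP p hspec
  have h0 : ∫ t, f t * P t = 0 := by
    have h1 : ∫ t, f t * P t = ∫ t, c * (f t * expR p t) := by
      refine integral_congr_ae ?_
      filter_upwards [hc] with t ht
      rw [ht]
      ring
    rw [h1, integral_const_mul, ← FT_real, hfp, mul_zero]
  have hl := (hlim f hf.1).norm
  rw [h0, norm_zero] at hl
  have h1 : ε ≤ 0 := ge_of_tendsto hl (Eventually.of_forall he)
  linarith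

end

end Pool.Agent.WK6
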