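import Pool.Agent.WK6.Gf5
import Pool.Agent.WK6.Gf6
import Pool.Agent.WK6.Gcs
import Pool.Agent.WK6.Gne
import Pool.Agent.WK6.Gr0
import Pool.Agent.WK6.Rg2
import Pool.Agent.WK6.Xl2
import Pool.Agent.WK6.Opt
import Pool.Agent.Helper73_WK6.Lrb
import Pool.Agent.WK5.Ca3
import Pool.Agent.WK5.Stmts
import Pool.Agent.WK4.Xdu
import Pool.Agent.WK4.Xsu
import Pool.Agent.WK2.Fin2
import Pool.Agent.WK2.Cl

/-!
# MP_7d2497_an, squad WK6: the explicit criterion, assembly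
-/

set_option autoImplicit false

namespace Pool.Agent.WK6

open MeasureTheory Filter Topology Complex
open Pool.Agent.H78E Pool.Agent.WK Pool.Agent.WK2
open Pool.Agent.WK3 (QC Lin)
open Pool.Agent.WK4 (NearI)

noncomputable section

/-- Exponential sums with frequencies near a point are small functionals on the maximal ideal of
this point, for every weight with `log φ(-t) = o(√t)`. -/
theorem lcl {φ : ℝ → ℝ} (hφ : IsWeight φ) (hQ : QC φ) (hL : ¬ Lin φ) (hS : Sml φ) : Lcl φ := by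
  have hpos : ∀ s : ℝ, 0 ≤ φ s := fun s => zero_le_one.trans (hφ.one_le s)
  exact xl2 φ hφ (rg2 φ hφ.meas hpos (gr0 φ hφ hQ hS)).2
    (opt Pool.Agent.WK5.ca3 H73.lrb gr0 φ hφ hQ hL hS)

theorem gneAll : GneStmt := by
  have hLew : LewStmt := lew
  have hFac : FacStmt := fac cnv hLew
  have hFub : FubStmt := fub
  have hNim : NimStmt := nim hFub
  have hSpc : SpcStmt := spc
  have hdu : Pool.Agent.WK4.XduStmt := Pool.Agent.WK4.xdu dua sep
  exact gne (gcs (gf6 (gf5 hdu) hdu) (de0 den hFac) hFac) (nic (niu hFac hLew) hNim hLew hSpc)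
    (asur sim van) (opn spx van)

/-- The lower limit condition. -/
theorem sml_liminf {φ : ℝ → ℝ} (hS : Sml φ) (c : ℝ) (hc : 0 < c) (T : ℝ) :
    ∃ t : ℝ, T ≤ t ∧ Real.log (φ (-t)) < c * Real.sqrt t := by
  have h1 : ∀ᶠ t : ℝ in atTop, Real.log (φ (-t)) / Real.sqrt t < c :=
    hS.eventually_lt_const hc
  obtain ⟨t, ⟨h2, h3⟩, h4⟩ :=
    ((h1.and (eventually_ge_atTop T)).and (eventually_gt_atTop 0)).exists
  refine ⟨t, h3, ?_⟩
  rwa [div_lt_iff₀ (Real.sqrt_pos.2 h4)] at h2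

/-- The explicit criterion. -/
theorem xfp_of (h5 : Pool.Agent.WK5.X5Stmt) (φ : ℝ → ℝ) (hφ : IsWeight φ)
    (h : (QC φ ∧ Sml φ) ∨ (Lin φ ∧ Reg φ)) (L : Set ℝ) :
    PropertyE φ L ↔ FarI φ L ∧
      (Lin φ ∨ ((∀ K ⊆ L, IsClosed K → K.Countable) ∧ ∀ p ∈ L, NearI φ L p)) := by
  have hpos : ∀ s : ℝ, 0 ≤ φ s := fun s => zero_le_one.trans (hφ.one_le s)
  have hreg : Reg φ := by
    rcases h with ⟨hQ, hS⟩ | ⟨_, hR⟩
    · exact (rg2 φ hφ.meas hpos (gr0 φ hφ hQ hS)).1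
    · exact hR
  by_cases hL : Lin φ
  · constructor
    · intro hE
      exact ⟨necc cl φ hφ hreg L hE, Or.inl hL⟩
    · rintro ⟨hF, _⟩
      exact suff φ hφ L (Or.inl hL) hF
  · obtain ⟨hQ, hS⟩ : QC φ ∧ Sml φ := by
      rcases h with h | h
      · exact h
      · exact absurd h.1 hL
    constructor
    · intro hE
      refine ⟨necc cl φ hφ hreg L hE, Or.inr ⟨h5 φ hφ hQ hL (sml_liminf hS) L hE, ?_⟩⟩
      exact gneAll φ hφ (lcl hφ hQ hL hS) hL L hE
    · rintro ⟨hF, hN⟩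
      obtain ⟨hC, hN⟩ := hN.resolve_left hL
      rcases Pool.Agent.WK3.H7F.qc_dich hQ with ht | hb
      · exact Pool.Agent.WK4.xsu φ hφ hQ hL ht L hC hN hF
      · exact Pool.Agent.WK3.H7F.pos_bdd φ hφ hb L hC

end

end Pool.Agent.WK6
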