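import Pool.Agent.WK6.Fin
import Pool.Agent.WK5.Main

/-!
# MP_7d2497_an, squad WK6: the explicit criterion, unconditional
-/

set_option autoImplicit false

namespace Pool.Agent.WK6

open Pool.Agent.H78E Pool.Agent.WK Pool.Agent.WK2
open Pool.Agent.WK3 (QC Lin)
open Pool.Agent.WK4 (NearI)

/-- The explicit criterion. -/
theorem xfp (φ : ℝ → ℝ) (hφ : IsWeight φ) (h : (QC φ ∧ Sml φ) ∨ (Lin φ ∧ Reg φ)) (L : Set ℝ) :
    PropertyE φ L ↔ FarI φ L ∧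
      (Lin φ ∨ ((∀ K ⊆ L, IsClosed K → K.Countable) ∧ ∀ p ∈ L, NearI φ L p)) :=
  xfp_of Pool.Agent.WK5.x5main φ hφ h L

end Pool.Agent.WK6
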