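import Pool.Agent.WK3.Defs
import Pool.Agent.WK5.Stmts

/-!
# MP_7d2497_an, squad WK6: local necessity for all weights with `log φ(-t) = o(√t)`

THEOREM X+. Theorem X of WK4 for all weights `φ` which are quasi-concave or of at least linear
growth on `[0,∞)` and (in the first case) satisfy `log φ(-t) / √t → 0` (`t → ∞`), in place of the
polynomially bounded ones: only XLC of WK4 (here `Lcl φ`) and `Reg φ` have to be proved for these
weights. The proof of `Lcl φ` is by weak compactness and the classification of the functions with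
one-point spectrum on the line.
-/

set_option autoImplicit false

namespace Pool.Agent.WK6

open MeasureTheory Filter Topology Complex
open Pool.Agent.H78E Pool.Agent.WK Pool.Agent.WK2
open Pool.Agent.WK3 (QC Lin)

noncomputable section

/-- Small growth on the negative half-line. -/
def Sml (φ : ℝ → ℝ) : Prop :=
  Tendsto (fun t : ℝ => Real.log (φ (-t)) / Real.sqrt t) atTop (𝓝 0)

/-- Growth less than every `exp (δ √|t|)`. -/
def Sub (φ : ℝ → ℝ) : Prop :=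
  ∀ δ : ℝ, 0 < δ → ∃ C : ℝ, 0 < C ∧ ∀ s : ℝ, φ s ≤ C * Real.exp (δ * Real.sqrt |s|)

/-- Band-limited functions with integral one, for every bandwidth. -/
def RegA (φ : ℝ → ℝ) : Prop :=
  ∀ r : ℝ, 0 < r → ∃ b : ℝ → ℂ, AEStronglyMeasurable b volume ∧
    Integrable (fun u : ℝ => φ u * ‖b u‖) ∧ ∫ u : ℝ, b u = 1 ∧
    ∀ x : ℝ, r ≤ |x| → ∫ u : ℝ, b u * Complex.exp (-(Complex.I * (u : ℂ) * (x : ℂ))) = 0

/-- Functions with one-point spectrum on the line are multiples of exponentials. -/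
def Opt (φ : ℝ → ℝ) : Prop :=
  ∀ P : ℝ → ℂ, LInf φ P → ∀ p : ℝ, Spec φ P ⊆ {p} → ∃ c : ℂ, P =ᵐ[volume] fun t => c * expR p t

/-- Exponential sums with frequencies near `p` are small functionals on the functions with
transform zero at `p` (the conclusion of XLC of WK4). -/
def Lcl (φ : ℝ → ℝ) : Prop :=
  ∀ (p : ℝ) (f : ℝ → ℂ), LP φ f → FT f (p : ℂ) = 0 → ∀ ε : ℝ, 0 < ε →
    ∃ ρ : ℝ, 0 < ρ ∧ ∀ (S : Finset ℝ) (c : ℝ → ℂ) (B : ℝ), (∀ x ∈ S, |x - p| ≤ ρ) →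
      (∀ t : ℝ, ‖ES S c t‖ ≤ B * φ t) → ‖∑ x ∈ S, c x * FT f (x : ℂ)‖ ≤ ε * B

/-- GR0. Domination.

Proof. For `s ≥ 0`: `φ s ≤ C (1+s)` (`Pool.Agent.WK5.qc_le`), and `1 + s ≤ C_δ exp(δ √s)`. For
`s = -t ≤ 0`: `log φ(-t) ≤ δ √t` for `t ≥ T` (`Sml`), and `φ` is bounded on `[-T,0]`
(`Pool.Agent.WKS.local_bound`). -/
def Gr0Stmt : Prop := ∀ φ : ℝ → ℝ, IsWeight φ → QC φ → Sml φ → Sub φ

/-- RG2. Regularity.

Proof. Let `b0, M0, r0` be from `Reg (fun t => (1+|t|)^2)` (`RegStmt`, proved in `WK2/Reg.lean`; only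
`∫ |b0| < ∞`, `∫ b0 = 1` and the bounded support of the transform are used). For `κ > 0` let
`W t = ∏_(j ≥ 1) sinc(κ t/j^2)` (`Real.sinc`; the product converges as `|sinc u - 1| ≤ u^2`, locally
uniformly; measurable as a limit of the finite products `W_N`). (1) `|sinc u| ≤ min 1 (1/|u|)`, and
`κ|t|/j^2 ≥ e` for the `j ≤ √(κ|t|/e)`, so `|W t| ≤ e exp(-√(κ|t|/e))`. (2) Band: with
`sinc(a t) = (1/2a) ∫_(-a)^a exp(its) ds` (Fubini), `FT (b sinc(a ·)) x = (1/2a) ∫_(-a)^a FT b (x-s) ds`,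
so the transform of `b0 W_N` is `0` for `|x| ≥ r0 + κ ∑_(j≤N) 1/j^2`, and (dominated convergence,
`|W_N| ≤ 1`) that of `b0 W` is `0` for `|x| ≥ r0 + 2κ`. (3) `∫ b0 W → ∫ b0 = 1` for `κ → 0`
(`W → 1` pointwise, `|W| ≤ 1`), so for a suitable `κ ≤ 1`, `b1 = b0 W / ∫ b0 W` has integral one,
`|b1 t| ≤ C |b0 t| exp(-δ0 √|t|)`, `δ0 > 0`, and transform `0` for `|x| ≥ r1`. (4) `Reg φ`: `b = b1`,
`M u = C exp(δ0 √|u|)` (`Sub φ` with `δ = δ0`). `RegA φ`: `b u = λ b1 (λ u)`, `λ = r/r1`: transform at `x`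
is that of `b1` at `x/λ`; `∫ φ |b| = ∫ φ(s/λ) |b1 s| ds`, `φ(s/λ) ≤ C exp(δ √(|s|/λ))` with
`δ = δ0 √λ`. -/
def Rg2Stmt : Prop := ∀ φ : ℝ → ℝ, Measurable φ → (∀ s : ℝ, 0 ≤ φ s) → Sub φ → Reg φ ∧ RegA φ

/-- LRB. Local bound near the real line.

Proof. Rhombus with vertices `v1 = x0 - 3/2`, `v2 = x0 + 3/2`, `x0 ± (3/2) i`; on its sides through
`v1`, `z = v1 + r exp(± iπ/4)`: `Re (1/(z - v1)) = 1/(√2 r) = 1/(2 |Im z|)`, similarly at `v2` with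
`1/(v2 - z)`; in the rhombus both real parts are positive. `Φ z = ψ z exp(-2η (1/(z-v1) + 1/(v2-z)))`
is at most `A` on the sides (not the vertices `v1, v2`), bounded in the rhombus, and tends to `0` at
`v1, v2` from inside (`ψ` is bounded near them, `Re (1/(z-v1)) ≥ 1/(2|z-v1|)` for
`|arg (z - v1)| ≤ π/4`). Maximum principle (extend `Φ` by `0` at the two vertices): `|Φ| ≤ A` inside.
For `|z - x0| ≤ 1/2`: `|z-v1|, |z-v2| ≥ 1`, so `|ψ z| ≤ A exp(4η)`. (For the sides through the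
vertices `x0 ± (3/2) i` use the symmetric form: the rhombus is the square `|Re z - x0| + |Im z| ≤ 3/2`;
on the left half of its boundary use `v1`, on the right half `v2`.) -/
def LrbStmt : Prop := ∀ (A η : ℝ), 0 ≤ A → 0 < η → ∀ (ψ : ℂ → ℂ) (x0 : ℝ),
  DifferentiableOn ℂ ψ (Metric.ball (x0 : ℂ) 2) →
  (∀ z : ℂ, ‖z - (x0 : ℂ)‖ < 2 → z.im ≠ 0 → ‖ψ z‖ ≤ A * Real.exp (η / |z.im|)) →
  ∀ z : ℂ, ‖z - (x0 : ℂ)‖ ≤ 1 / 2 → ‖ψ z‖ ≤ A * Real.exp (4 * η)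

/-- OPT. One-point spectrum on the line (uses CA3 of WK5, LRB, LINE: `Helper15_E.line bipolar`).

Proof. `K` from LINE: analytic for `z ≠ p`, `K z = ∫_0^∞ P exp(izt)` above, `-∫_(-∞)^0` below. `|P| ≤ B φ`.
Above, `y = Im z`: `|K z| ≤ B ∫_0^∞ φ(t) exp(-yt) dt`, `φ t ≤ C (1+t)` (`qc_le`) gives
`≤ BC (1/y + 1/y^2)`; `φ t ≤ ε t + C_ε` (`φ(t)/t → 0`: quasi-concave, not of linear growth; as in SMW)
gives `|K (p + iy)| ≤ 2ε/y^2` for small `y`. Below, `y = |Im z|`: `|K z| ≤ B ∫_0^∞ φ(-t) exp(-yt) dt`,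
which is decreasing in `y` and at most `exp(η/y)` for `y ≤ y0` (GROW: `GrowStmt`, proved from
`Tendsto`; or directly from `Sub`: `δ √t ≤ yt/2 + δ^2/(2y)`), so `≤ C_η exp(η/|Im z|)` for all
`Im z < 0`. Far: for real `x0` with `|x0 - p| ≥ 3`, `K` is analytic in the ball of radius `2` about
`x0` with `|K z| ≤ A exp(1/|Im z|)`, `A` independent of `x0` (above: `1/y + 1/y^2 ≤ 4 exp(1/y)`), so
`|K z| ≤ A exp 4` for `|z - x0| ≤ 1/2` (LRB): `|K| ≤ C'` for `|Im z| ≤ 1/2`, `|z - p| ≥ 4`; and for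
`Im z ≤ -1/2`: `|K z| ≤ B ∫ φ(-t) exp(-t/2)`. So `|K z| ≤ C'' ≤ C'' (1+|z|)/|Im z|` for `Im z < 0`, `|z|`
large: the last hypothesis of CA3 with `N = 1`. CA3: `K z = c/(z-p)`. So for `Im z > 0`:
`∫_0^∞ (P t + i c exp(-ipt)) exp(izt) dt = 0` (as `∫_0^∞ exp(i(z-p)t) dt = i/(z-p)`), hence
`P t = -i c exp(-ipt)` for a.e. `t > 0` (LAPU: `H85.lapu` for the class of
`(P t + i c exp(-ipt)) exp(-t)`), and in the same way (reflection `t → -t`) for a.e. `t < 0`, with the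
same constant. -/
def OptStmt : Prop := ∀ φ : ℝ → ℝ, IsWeight φ → QC φ → ¬ Lin φ → Sml φ → Opt φ

/-- XL2. Local smallness by compactness (uses WLM of WK, `mem_Spec` of `Helper78_E/SpecL` or
`bipolar`).

Proof. Otherwise there are `p, f, ε` and for every `n` some `S_n ⊆ [p - 1/(n+1), p + 1/(n+1)]`, `c_n`,
`B_n` with `|ES S_n c_n| ≤ B_n φ` and `|∑ c_x FT f x| > ε B_n`. `∑ c_x FT f x = ∫ f ES` (finite sum), so
`B_n > 0`, and after division `B_n = 1`; `P_n = ES S_n c_n`, `|P_n| ≤ φ`, `|∫ f P_n| > ε`. WLM for an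
ultrafilter `U ≤ atTop`: `P`, `∫ u P_n → ∫ u P` for all `u ∈ L1 φ` (two-sided). `Spec φ P ⊆ {p}`: for
`x ≠ p` take `b` from `RegA φ` with `r = |x-p|/2`, `u t = b t exp(itx)`: `∫ u(t) exp(-itξ) dt` is `1` for
`ξ = x` and `0` for `|ξ - x| ≥ r`; for every `s`, `∫ u(t) P_n(t+s) dt = ∑ c_ξ exp(-isξ) û(ξ) = 0` for
large `n`, and `∫ u(t) P_n(t+s) dt = ∫ u(t-s) P_n(t) dt → ∫ u(t-s) P(t) dt` (`u(· - s) ∈ L1 φ`), so
`∫ u(t) P(t+s) dt = 0` for all `s` but `∫ u expR x = 1`: `x ∉ Spec φ P`. By `Opt φ`,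
`P = c expR p` a.e., so `∫ f P = c FT f p = 0`, but `|∫ f P| ≥ ε`. -/
def Xl2Stmt : Prop := ∀ φ : ℝ → ℝ, IsWeight φ → RegA φ → Opt φ → Lcl φ

end

end Pool.Agent.WK6
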