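import Pool.Agent.WK6.Stmts
import Pool.Agent.WK4.Stmts

/-!
# MP_7d2497_an, squad WK6: the local statements of WK4 with `Lcl φ` in place of the polynomial bound
-/

set_option autoImplicit false

namespace Pool.Agent.WK6

open MeasureTheory Filter Topology Complex
open Pool.Agent.H78E Pool.Agent.WK Pool.Agent.WK2 Pool.Agent.WK3 Pool.Agent.WK4

noncomputable section

/-- XF5 of WK4 for weights with `Lcl`. -/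
def Gf5Stmt : Prop := ∀ φ : ℝ → ℝ, IsWeight φ → Lcl φ → ¬ Lin φ →
  ∀ (p : ℝ) (F0 : Finset ℝ) (n : ℝ), p ∉ F0 → 1 ≤ n →
  ∃ ρ n' : ℝ, 0 < ρ ∧ 0 < n' ∧ ∀ F' : Finset ℝ, (∀ x ∈ F', |x - p| ≤ ρ) →
    Ineq φ ((insert p F' : Finset ℝ) : Set ℝ) n →
    Disjoint F0 (insert p F') ∧ ∀ (c : ℝ → ℂ) (A : ℝ),
      (∀ t : ℝ, 0 ≤ t → ‖ES (F0 ∪ insert p F') c t‖ ≤ A * φ t) →
      ∀ t : ℝ, ‖ES (insert p F') c t‖ ≤ n' * A * φ t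

/-- XF6 of WK4 for weights with `Lcl`. -/
def Gf6Stmt : Prop := ∀ φ : ℝ → ℝ, IsWeight φ → Lcl φ → ¬ Lin φ →
  ∀ (p : ℝ) (F0 : Finset ℝ) (f : ℝ → ℂ), p ∉ F0 → LP φ f → FT f (p : ℂ) = 0 →
  (∀ x ∈ F0, FT f (x : ℂ) = 0) → ∀ n ε : ℝ, 1 ≤ n → 0 < ε →
  ∃ ρ : ℝ, 0 < ρ ∧ ∀ F' : Finset ℝ, (∀ x ∈ F', |x - p| ≤ ρ) →
    Ineq φ ((insert p F' : Finset ℝ) : Set ℝ) n → ∀ y : ℝ, |y - p| ≤ ρ →
    ∃ f' : ℝ → ℂ, LP φ f' ∧ (∀ x ∈ insert y (insert p (F0 ∪ F')), FT f' (x : ℂ) = 0) ∧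
      ∫ t : ℝ, φ t * ‖f t - f' t‖ ≤ ε

/-- XCS of WK4 for weights with `Lcl`. -/
def GcsStmt : Prop := ∀ φ : ℝ → ℝ, IsWeight φ → Lcl φ → ¬ Lin φ →
  ∀ (L : Set ℝ) (p : ℝ), p ∈ L → ¬ NearI φ L p →
  ∃ K : Set ℝ, K ⊆ L ∧ p ∈ K ∧ IsClosed K ∧ K.Countable ∧ Dns φ K {p} ∧ ∀ C : ℝ, ¬ Ineq φ K C

/-- XNE of WK4 for weights with `Lcl`. -/
def GneStmt : Prop := ∀ φ : ℝ → ℝ, IsWeight φ → Lcl φ → ¬ Lin φ →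
  ∀ L : Set ℝ, PropertyE φ L → ∀ p ∈ L, NearI φ L p

end

end Pool.Agent.WK6
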